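import Pool.Agent.Helper47.CO.Equal

/-!
# Tetrahedra are convex bodies and cones
-/

set_option autoImplicit false
namespace Pool.Agent.Helper47.CO
open MeasureTheory Filter Topology Metric
open scoped Pointwise ENNReal
open Pool.Agent.Helper84.Tet

theorem IsTetrahedron.body {K : Set E3} (h : IsTetrahedron K) : IsConvexBody K := by
  obtain ⟨v, hv, rfl⟩ := h
  refine ⟨convex_convexHull ℝ _, (Set.finite_range v).isCompact_convexHull ℝ, ?_⟩
  rw [interior_convexHull_nonempty_iff_affineSpan_eq_top]
  rw [hv.affineSpan_eq_top_iff_card_eq_finrank_add_one]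
  simp

theorem IsTetrahedron.cone {K : Set E3} (h : IsTetrahedron K) : IsTruncatedCone K := by
  obtain ⟨v, hv, rfl⟩ := h
  have hli := linearIndependent_of_affine hv
  let b : Module.Basis (Fin 3) ℝ E3 := basisOfLinearIndependentOfCardEqFinrank hli (by simp)
  have hb : ∀ i, b i = v i.succ - v 0 := by intro i; simp [b]
  have hQne : (convexHull ℝ (Set.range (fun i : Fin 3 => v i.succ))).Nonempty :=
    ⟨v 1, subset_convexHull ℝ _ ⟨0, rfl⟩⟩
  refine ⟨convexHull ℝ (Set.range (fun i : Fin 3 => v i.succ)), v 0, 0, sm b, 1 + sm b (v 0),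
    convex_convexHull ℝ _, (Set.finite_range _).isCompact_convexHull ℝ, ?_, ?_, le_rfl, one_pos, ?_⟩
  · intro h0
    have := sm_self b 0
    rw [h0] at this
    simp at this
  · intro x hx
    have hgen : ∀ y ∈ Set.range (fun i : Fin 3 => v i.succ), sm b y = 1 + sm b (v 0) := by
      rintro _ ⟨i, rfl⟩
      have := sm_self b i
      rw [hb, map_sub] at this
      show sm b (v i.succ) = _
      linarith
    have h1 := hull_le (g := sm b) (c := 1 + sm b (v 0)) (fun y hy => (hgen y hy).le) x hx
    have h2 := hull_le (g := -sm b) (c := -(1 + sm b (v 0))) (fun y hy => by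
      rw [LinearMap.neg_apply, hgen y hy]) x hx
    rw [LinearMap.neg_apply] at h2
    linarith
  · rw [Set.zero_smul_set hQne]
    have e : (v 0 +ᵥ (0 : Set E3)) = {v 0} := by
      ext y
      constructor
      · rintro ⟨z, hz, rfl⟩
        have : z = 0 := hz
        rw [this]; simp
      · rintro rfl
        exact ⟨0, rfl, by simp⟩
    rw [e]
    apply Set.Subset.antisymm
    · refine convexHull_min ?_ (convex_convexHull ℝ _)
      rintro _ ⟨i, rfl⟩
      refine Fin.cases ?_ (fun j => ?_) i
      · exact subset_convexHull ℝ _ (Or.inr rfl)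
      · exact subset_convexHull ℝ _ (Or.inl (subset_convexHull ℝ _ ⟨j, rfl⟩))
    · refine convexHull_min ?_ (convex_convexHull ℝ _)
      rintro y (hy | hy)
      · refine convexHull_mono ?_ hy
        rintro _ ⟨j, rfl⟩
        exact ⟨j.succ, rfl⟩
      · have : y = v 0 := hy
        rw [this]
        exact subset_convexHull ℝ _ ⟨0, rfl⟩

theorem mL_lt : mL < 18 / 49 := by
  obtain ⟨K, hK, _, _, hlt⟩ := main 1 one_pos
  refine lt_of_le_of_lt ?_ hlt
  unfold mL
  exact iInf_le_of_le K (iInf_le_of_le hK le_rfl)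

end Pool.Agent.Helper47.CO
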