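import Pool.Agent.Helper47.CO.Chart

/-!
# Lattices for cones: all values of the parameters
-/

set_option autoImplicit false
namespace Pool.Agent.Helper47.CO

theorem Good.perm {u : ℝ} {a : Fin 3 → ℝ} (π : Equiv.Perm (Fin 3)) (h : Good u (a ∘ π)) :
    Good u a := by
  obtain ⟨M, D, hadm, hdet, hD, h1, h2⟩ := h
  have hs : ∑ i, (a ∘ π) i = ∑ i, a i := Equiv.sum_comp π a
  rw [hs] at h1 h2
  refine ⟨M.submatrix π.symm π.symm, D, ?_, ?_, hD, h1, h2⟩
  · intro n hn hsum
    have hn' : n ∘ π ≠ 0 := by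
      intro h
      apply hn
      ext i
      have := congrFun h (π.symm i)
      simpa using this
    have hw : ∀ j, ∑ i, (n i : ℝ) * M.submatrix π.symm π.symm i j =
        ∑ i, ((n ∘ π) i : ℝ) * M i (π.symm j) := by
      intro j
      rw [← Equiv.sum_comp π]
      refine Finset.sum_congr rfl (fun i _ => ?_)
      simp
    have hsum' : ∑ j, ∑ i, (n i : ℝ) * M.submatrix π.symm π.symm i j =
        ∑ j, ∑ i, ((n ∘ π) i : ℝ) * M i j := by
      simp only [hw]
      exact Equiv.sum_comp π.symm (fun j => ∑ i, ((n ∘ π) i : ℝ) * M i j)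
    have key := hadm (n ∘ π) hn' (by rw [← hsum']; exact hsum)
    unfold Exc at key ⊢
    rw [hsum']
    rcases key with h | ⟨i, h⟩
    · left; exact h
    · right
      refine ⟨π i, ?_⟩
      have e : (∑ k, (n k : ℝ) * M.submatrix π.symm π.symm k (π i)) =
          ∑ k, ((n ∘ π) k : ℝ) * M k i := by
        rw [hw]; simp
      beta_reduce
      rw [e]
      exact h
  · rw [Matrix.det_submatrix_equiv_self]
    exact hdet

theorem good_sorted {u : ℝ} (hu : 0 ≤ u) (hu1 : u < 1) {a : Fin 3 → ℝ} (h0 : 0 ≤ a 2)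
    (h1 : a 2 ≤ a 1) (h2 : a 1 ≤ a 0) (h3 : a 0 ≤ 1) : Good u a := by
  have ha : a = ![a 0, a 1, a 2] := by
    ext i; fin_cases i <;> rfl
  by_cases hs1 : a 0 + a 1 + a 2 ≤ 1 / 3
  · rw [ha]; exact good1 hu hu1 h0 h1 h2 hs1
  by_cases hs2 : 5 / 4 < a 0 + a 1 + a 2
  · rw [ha]; exact good2 hu hu1 h0 h1 h2 h3 (Or.inl hs2)
  by_cases hs3 : 15 / 16 < a 0
  · rw [ha]; exact good2 hu hu1 h0 h1 h2 h3 (Or.inr ⟨hs3, not_lt.1 hs2⟩)
  apply Good.perm (Equiv.swap 1 2)
  have e : a ∘ (Equiv.swap (1 : Fin 3) 2) = ![a 0, a 2, a 1] := by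
    ext i; fin_cases i
    · show a (Equiv.swap (1 : Fin 3) 2 0) = a 0
      congr 1
    · show a (Equiv.swap (1 : Fin 3) 2 1) = a 2
      congr 1
    · show a (Equiv.swap (1 : Fin 3) 2 2) = a 1
      congr 1
  rw [e]
  exact good3 hu hu1 h0 h1 h2 (not_lt.1 hs3) (not_le.1 hs1) (not_lt.1 hs2)

/-- For all values of the parameters there is a good lattice. -/
theorem good_all {u : ℝ} (hu : 0 ≤ u) (hu1 : u < 1) {a : Fin 3 → ℝ} (h0 : ∀ i, 0 ≤ a i)
    (h1 : ∀ i, a i ≤ 1) : Good u a := by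
  have hm := Tuple.monotone_sort (fun i => -a i)
  set π := Tuple.sort (fun i => -a i) with hπ
  apply Good.perm π
  have h01 := hm (show (0 : Fin 3) ≤ 1 by decide)
  have h12 := hm (show (1 : Fin 3) ≤ 2 by decide)
  simp only [Function.comp_apply] at h01 h12
  refine good_sorted hu hu1 ?_ ?_ ?_ ?_
  · exact h0 _
  · simp only [Function.comp_apply]; linarith
  · simp only [Function.comp_apply]; linarith
  · exact h1 _

end Pool.Agent.Helper47.CO
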