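import Pool.Agent.Helper47.CO.Fam

/-!
# Lattices for cones: the determinant
-/

set_option autoImplicit false
set_option linter.unusedSimpArgs false
namespace Pool.Agent.Helper47.CO

theorem ne_zero_three {n : Fin 3 → ℤ} (hn : n ≠ 0) : ¬ (n 0 = 0 ∧ n 1 = 0 ∧ n 2 = 0) := by
  rintro ⟨h0, h1, h2⟩
  apply hn
  ext i
  fin_cases i
  · exact h0
  · exact h1
  · exact h2

theorem admA {τ a1 a2 a3 h1 h2 h3 c12 c13 c21 c23 c31 c32 : ℝ}
    (ha1 : 0 ≤ a1) (ha2 : 0 ≤ a2) (ha3 : 0 ≤ a3) (hh1 : 0 < h1) (hh2 : 0 < h2) (hh3 : 0 < h3)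
    (hs : h1 + h2 + h3 = τ) (hτ : τ ≤ 1) (k12 : h1 ≤ c12) (k13 : h1 ≤ c13) (k21 : h2 ≤ c21) (k23 : h2 ≤ c23)
    (k31 : h3 ≤ c31) (k32 : h3 ≤ c32) (col1 : 1 + a1 * (1 - h2 - h3) ≤ c21 + c31)
    (col2 : 1 + a2 * (1 - h1 - h3) ≤ c12 + c32)
    (col3 : 1 + a3 * (1 - h1 - h2) ≤ c13 + c23)
    (row1 : c12 + c13 = 1 + a1) (row2 : c21 + c23 = 1 + a2) (row3 : c31 + c32 = 1 + a3) :
    Adm τ ![a1, a2, a3] !![1 - h1 + a1, -c12, -c13; -c21, 1 - h2 + a2, -c23;
      -c31, -c32, 1 - h3 + a3] := by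
  intro n hn hsum
  have hn' := ne_zero_three hn
  simp only [Fin.sum_univ_three, Matrix.of_apply, Matrix.cons_val', Matrix.cons_val_zero,
    Matrix.cons_val_one, Matrix.cons_val] at hsum
  have hS : (n 0 : ℝ) * h1 + n 1 * h2 + n 2 * h3 =
      -((n 0 * (1 - h1 + a1) + n 1 * -c21 + n 2 * -c31) +
      (n 0 * -c12 + n 1 * (1 - h2 + a2) + n 2 * -c32) +
      (n 0 * -c13 + n 1 * -c23 + n 2 * (1 - h3 + a3))) := by
    linear_combination (n 0 : ℝ) * (-row1) + n 1 * (-row2) + n 2 * (-row3)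
  have key := famA ha1 ha2 ha3 hh1 hh2 hh3 hs hτ k12 k13 k21 k23 k31 k32 col1 col2 col3 (n 0) (n 1)
    (n 2) hn' rfl (by rw [hS]; linarith)
  unfold Exc
  simp only [Fin.sum_univ_three, Matrix.of_apply, Matrix.cons_val', Matrix.cons_val_zero,
    Matrix.cons_val_one, Matrix.cons_val]
  rw [hS] at key
  rcases key with h | h | h | h
  · left; linarith
  · right; refine ⟨0, ?_⟩
    simp only [Matrix.cons_val_zero, Matrix.cons_val_one, Matrix.cons_val]
    rcases h with h | h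
    · left; linarith
    · right; linarith
  · right; refine ⟨1, ?_⟩
    simp only [Matrix.cons_val_zero, Matrix.cons_val_one, Matrix.cons_val]
    rcases h with h | h
    · left; linarith
    · right; linarith
  · right; refine ⟨2, ?_⟩
    simp only [Matrix.cons_val_zero, Matrix.cons_val_one, Matrix.cons_val]
    rcases h with h | h
    · left; linarith
    · right; linarith

theorem admB {τ a1 a2 a3 h1 h2 h3 c12 c13 c21 c23 c31 c32 : ℝ}
    (ha1 : 0 ≤ a1) (ha2 : 0 ≤ a2) (ha3 : 0 ≤ a3) (hh1 : 0 < h1) (hh2 : 0 < h2) (hh3 : 0 < h3)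
    (hs : h1 + h2 + h3 = τ) (hτ : τ ≤ 1) (k12 : a2 * h1 ≤ c12) (k13 : a3 * h1 ≤ c13) (k21 : a1 * h2 ≤ c21)
    (k23 : a3 * h2 ≤ c23) (k31 : a1 * h3 ≤ c31) (k32 : a2 * h3 ≤ c32)
    (col1 : 1 + a1 - h2 - h3 ≤ c21 + c31) (col2 : 1 + a2 - h1 - h3 ≤ c12 + c32)
    (col3 : 1 + a3 - h1 - h2 ≤ c13 + c23)
    (row1 : c12 + c13 = (1 + a1) * (1 - h1)) (row2 : c21 + c23 = (1 + a2) * (1 - h2))
    (row3 : c31 + c32 = (1 + a3) * (1 - h3)) :
    Adm τ ![a1, a2, a3] !![-1 - a1 * (1 - h1), c12, c13; c21, -1 - a2 * (1 - h2), c23;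
      c31, c32, -1 - a3 * (1 - h3)] := by
  intro n hn hsum
  have hn' := ne_zero_three hn
  simp only [Fin.sum_univ_three, Matrix.of_apply, Matrix.cons_val', Matrix.cons_val_zero,
    Matrix.cons_val_one, Matrix.cons_val] at hsum
  have hS : (n 0 : ℝ) * h1 + n 1 * h2 + n 2 * h3 =
      -((n 0 * (-1 - a1 * (1 - h1)) + n 1 * c21 + n 2 * c31) +
      (n 0 * c12 + n 1 * (-1 - a2 * (1 - h2)) + n 2 * c32) +
      (n 0 * c13 + n 1 * c23 + n 2 * (-1 - a3 * (1 - h3)))) := by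
    linear_combination (n 0 : ℝ) * (row1) + n 1 * (row2) + n 2 * (row3)
  have key := famB ha1 ha2 ha3 hh1 hh2 hh3 hs hτ k12 k13 k21 k23 k31 k32 col1 col2 col3 (n 0) (n 1)
    (n 2) hn' rfl (by rw [hS]; linarith)
  unfold Exc
  simp only [Fin.sum_univ_three, Matrix.of_apply, Matrix.cons_val', Matrix.cons_val_zero,
    Matrix.cons_val_one, Matrix.cons_val]
  rw [hS] at key
  rcases key with h | h | h | h
  · left; linarith
  · right; refine ⟨0, ?_⟩
    simp only [Matrix.cons_val_zero, Matrix.cons_val_one, Matrix.cons_val]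
    rcases h with h | h
    · left; linarith
    · right; linarith
  · right; refine ⟨1, ?_⟩
    simp only [Matrix.cons_val_zero, Matrix.cons_val_one, Matrix.cons_val]
    rcases h with h | h
    · left; linarith
    · right; linarith
  · right; refine ⟨2, ?_⟩
    simp only [Matrix.cons_val_zero, Matrix.cons_val_one, Matrix.cons_val]
    rcases h with h | h
    · left; linarith
    · right; linarith

theorem det3_of (a b c d e f g h i : ℝ) : Matrix.det !![a, b, c; d, e, f; g, h, i] =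
    a * e * i - a * f * h - b * d * i + b * f * g + c * d * h - c * e * g := by
  rw [Matrix.det_fin_three]
  simp

/-- The conclusion for given numbers `a i` and `u`: a lattice for the truncated cones of height
`1 - u`. -/
def Good (u : ℝ) (a : Fin 3 → ℝ) : Prop :=
  ∃ (M : Matrix (Fin 3) (Fin 3) ℝ) (D : ℝ), Adm (1 - u) a M ∧ M.det = -D ∧ 0 < D ∧
    D ≤ 49 / 108 * (1 + ∑ i, a i) * (1 - u ^ 3) ∧
    (0 < u ∨ (0 < ∑ i, a i ∧ ∑ i, a i < 3) → D < 49 / 108 * (1 + ∑ i, a i) * (1 - u ^ 3))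

/-- Reduction to an inequality without the factor `1 - u`. -/
theorem good_of {u σ D D' : ℝ} (h1 : u < 1) (hD : D = (1 - u) * D') (hpos : 0 < D')
    (hle : D' ≤ 49 / 108 * (1 + σ) * (1 + u + u ^ 2))
    (hlt : 0 < u ∨ (0 < σ ∧ σ < 3) → D' < 49 / 108 * (1 + σ) * (1 + u + u ^ 2)) :
    0 < D ∧ D ≤ 49 / 108 * (1 + σ) * (1 - u ^ 3) ∧
    (0 < u ∨ (0 < σ ∧ σ < 3) → D < 49 / 108 * (1 + σ) * (1 - u ^ 3)) := by
  have h : 0 < 1 - u := by linarith
  have e : 49 / 108 * (1 + σ) * (1 - u ^ 3) =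
      (1 - u) * (49 / 108 * (1 + σ) * (1 + u + u ^ 2)) := by ring
  rw [hD, e]
  exact ⟨mul_pos h hpos, mul_le_mul_of_nonneg_left hle h.le,
    fun hh => mul_lt_mul_of_pos_left (hlt hh) h⟩

theorem good1 {u A B C : ℝ} (hu : 0 ≤ u) (hu1 : u < 1) (hC : 0 ≤ C) (hB : C ≤ B) (hA : B ≤ A)
    (hs : A + B + C ≤ 1 / 3) : Good u ![A, B, C] := by
  have hB0 : 0 ≤ B := by linarith
  have hA0 : 0 ≤ A := by linarith
  have hpos : 0 ≤ A * B + A * C + B * C := by positivity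
  have hsq : (A + B + C) ^ 2 ≤ 1 / 3 * (A + B + C) := by nlinarith
  have hsq3 : 0 ≤ (A - B) ^ 2 + (B - C) ^ 2 + (A - C) ^ 2 := by positivity
  have hA1 : 0 ≤ A * (2 / 3 * (1 - u)) := mul_nonneg hA0 (by linarith)
  have hB1 : 0 ≤ B * (2 / 3 * (1 - u)) := mul_nonneg hB0 (by linarith)
  have hC1 : 0 ≤ C * (2 / 3 * (1 - u)) := mul_nonneg hC (by linarith)
  have hu2 : 0 ≤ u * (A + B + C) := by positivity
  have hu3 : 0 ≤ u ^ 2 * (A + B + C) := by positivity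
  have hu4 : 0 ≤ u ^ 2 := by positivity
  refine ⟨_, (1 - u) * (3 / 4 + (A + B + C) / 2 +
      (2 * (A * B + A * C + B * C) - (A ^ 2 + B ^ 2 + C ^ 2)) / 4
      - (1 - u) * (3 + (A + B + C)) / 9 + (1 - u) ^ 2 / 27),
    admA (τ := 1 - u) (h1 := (1 - u) / 3) (h2 := (1 - u) / 3) (h3 := (1 - u) / 3)
    (c12 := (1 + A + B - C) / 2)
    (c13 := (1 + A + C - B) / 2) (c21 := (1 + B + A - C) / 2) (c23 := (1 + B + C - A) / 2)
    (c31 := (1 + C + A - B) / 2) (c32 := (1 + C + B - A) / 2)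
    (by linarith) (by linarith) (by linarith) (by linarith) (by linarith) (by linarith)
    (by ring) (by linarith) (by linarith) (by linarith) (by linarith) (by linarith)
    (by linarith) (by linarith) (by linarith) (by linarith) (by linarith) (by linarith)
    (by linarith) (by linarith), ?_, ?_⟩
  · rw [det3_of]
    ring
  · simp only [Fin.sum_univ_three, Matrix.cons_val_zero, Matrix.cons_val_one, Matrix.cons_val]
    refine good_of hu1 rfl ?_ ?_ ?_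
    · nlinarith
    · nlinarith
    · rintro (h0 | ⟨h0, -⟩)
      · nlinarith
      · nlinarith

theorem good2 {u A B C : ℝ} (hu : 0 ≤ u) (hu1 : u < 1) (hC : 0 ≤ C) (hB : C ≤ B) (hA : B ≤ A)
    (hA1 : A ≤ 1)
    (hs : 5 / 4 < A + B + C ∨ (15 / 16 < A ∧ A + B + C ≤ 5 / 4)) : Good u ![A, B, C] := by
  have hB0 : 0 ≤ B := by linarith
  have hA0 : 0 ≤ A := by linarith
  have hpos : 0 ≤ A * B + A * C + B * C := by positivity
  have hsq : A ^ 2 + B ^ 2 + C ^ 2 ≤ A + B + C := by nlinarith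
  have hsq3 : 0 ≤ (A - B) ^ 2 + (B - C) ^ 2 + (A - C) ^ 2 := by positivity
  have hs3 : A + B + C ≤ 3 := by linarith
  have hs0 : 15 / 16 < A + B + C := by
    rcases hs with h | ⟨h, -⟩ <;> linarith
  -- the inequality for `u = 0`
  set σ := A + B + C with hσ
  set D := 2 * (A * B + A * C + B * C) - (A ^ 2 + B ^ 2 + C ^ 2) with hD
  have hDσ : D ≤ σ ^ 2 / 3 := by rw [hD, hσ]; nlinarith
  have hDl : -σ ≤ D := by rw [hD, hσ]; nlinarith
  have hσ2 : σ ^ 2 ≤ 3 * σ := by nlinarith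
  have h17 : 12 * D ≤ 17 * σ - 15 := by
    rcases hs with hs | ⟨hs1, hs2⟩
    · nlinarith [mul_nonneg (sub_nonneg.2 hs.le) (sub_nonneg.2 hs3)]
    · rw [hD, hσ]; nlinarith
  have h17' : σ < 3 → 12 * D < 17 * σ - 15 := by
    intro h1
    rcases hs with hs | ⟨hs1, hs2⟩
    · nlinarith [mul_pos (sub_pos.2 hs) (sub_pos.2 h1)]
    · rw [hD, hσ]; nlinarith
  have k1 : 0 < 33 / 4 + 29 / 4 * σ - 3 * D := by nlinarith
  have k2 : 0 < 12 + 47 / 4 * σ - 3 / 4 * D := by nlinarith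
  have hu4 : 0 ≤ u ^ 2 := by positivity
  have k3 := mul_nonneg hu k1.le
  have k4 := mul_nonneg hu4 k2.le
  have g1 : ∀ x y : ℝ, 0 ≤ x → x ≤ y →
      x * ((1 - u) / 3) ≤ (1 - (1 - u) / 3) * y / 2 := by
    intro x y hx hxy
    have e1 : 0 ≤ x * u := mul_nonneg hx hu
    have e2 : 0 ≤ (1 - (1 - u) / 3) * (y - x) := mul_nonneg (by linarith) (by linarith)
    linarith
  have g2 : ∀ x y z : ℝ, x ≤ 1 → y + z = 2 * (1 + x) →
      1 + x - (1 - u) / 3 - (1 - u) / 3 ≤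
        (1 - (1 - u) / 3) * y / 2 + (1 - (1 - u) / 3) * z / 2 := by
    intro x y z hx hyz
    have e1 : 0 ≤ (1 - x) * (1 - u) := mul_nonneg (by linarith) (by linarith)
    have e2 : (1 - (1 - u) / 3) * y / 2 + (1 - (1 - u) / 3) * z / 2 =
      (1 - (1 - u) / 3) * (1 + x) := by linear_combination (1 - (1 - u) / 3) / 2 * hyz
    rw [e2]
    linarith
  refine ⟨_, (1 - u) * (((1 - u) ^ 2 + (1 - u) * (2 + u) * (3 + σ) +
      (2 + u) ^ 2 * (9 / 4 + 3 / 2 * σ + 3 / 4 * D)) / 27),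
    admB (τ := 1 - u) (h1 := (1 - u) / 3) (h2 := (1 - u) / 3) (h3 := (1 - u) / 3)
    (c12 := (1 - (1 - u) / 3) * (1 + A + B - C) / 2)
    (c13 := (1 - (1 - u) / 3) * (1 + A + C - B) / 2)
    (c21 := (1 - (1 - u) / 3) * (1 + B + A - C) / 2)
    (c23 := (1 - (1 - u) / 3) * (1 + B + C - A) / 2)
    (c31 := (1 - (1 - u) / 3) * (1 + C + A - B) / 2)
    (c32 := (1 - (1 - u) / 3) * (1 + C + B - A) / 2)
    (by linarith) (by linarith) (by linarith) (by linarith) (by linarith) (by linarith)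
    (by ring) (by linarith) (g1 _ _ hB0 (by linarith)) (g1 _ _ hC (by linarith))
    (g1 _ _ hA0 (by linarith)) (g1 _ _ hC (by linarith)) (g1 _ _ hA0 (by linarith))
    (g1 _ _ hB0 (by linarith)) (g2 _ _ _ hA1 (by linarith)) (g2 _ _ _ (by linarith) (by linarith))
    (g2 _ _ _ (by linarith) (by linarith)) (by ring) (by ring) (by ring), ?_, ?_⟩
  · rw [det3_of, hD, hσ]
    ring
  · simp only [Fin.sum_univ_three, Matrix.cons_val_zero, Matrix.cons_val_one, Matrix.cons_val]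
    refine good_of hu1 rfl ?_ ?_ ?_
    · have : 0 < 9 / 4 + 3 / 2 * σ + 3 / 4 * D := by linarith
      have h1 : 0 < 1 - u := by linarith
      positivity
    · nlinarith
    · rintro (h0 | ⟨-, h0⟩)
      · nlinarith [mul_pos h0 k1]
      · nlinarith [h17' h0]

theorem good3 {u A B C : ℝ} (hu : 0 ≤ u) (hu1 : u < 1) (hC : 0 ≤ C) (hB : C ≤ B) (hA : B ≤ A)
    (hA1 : A ≤ 15 / 16) (hs : 1 / 3 < A + B + C) (hs2 : A + B + C ≤ 5 / 4) :
    Good u ![A, C, B] := by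
  have hB0 : 0 ≤ B := by linarith
  have hA0 : 0 ≤ A := by linarith
  have hC1 : C ≤ 5 / 12 := by linarith
  have hu4 : 0 ≤ u ^ 2 := by positivity
  have hv : 0 ≤ 1 - u := by linarith
  -- the three coefficients
  have s0 : 0 < -28 / 3375 + 253 / 2700 * (A + B) + 307 / 2700 * C + C ^ 2 / 4
      - 8 / 25 * (A + B) * C - 233 / 625 * (A * B) + 64 / 625 * (A ^ 2 + B ^ 2) := by
    nlinarith [sq_nonneg (A - B), sq_nonneg (C - (59 / 250 * (A + B + C) - 1 / 50) / (132 / 125)),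
      mul_nonneg (sub_nonneg.2 hs.le) (sub_nonneg.2 hs2)]
  have s1 : 0 < 2669 / 13500 + 847 / 2700 * (A + B) + 793 / 2700 * C - 9 / 50 * (A + B) * C
      - 84 / 625 * (A * B) + 72 / 625 * (A ^ 2 + B ^ 2) := by
    nlinarith [sq_nonneg (A - B), mul_nonneg hA0 hB0, mul_nonneg hA0 hC, mul_nonneg hB0 hC]
  have s2 : 0 < 5693 / 13500 + 49 / 108 * (A + B + C) + 81 / 2500 * (A ^ 2 + B ^ 2)
      + 9 / 1250 * (A * B) := by positivity
  have s1' := mul_nonneg hu s1.le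
  have s2' := mul_nonneg hu4 s2.le
  have g1 : ∀ x y h : ℝ, h ≤ x → 0 ≤ y → (1 - u) * h ≤ (1 - u) * x + u * y := by
    intro x y h hx hy
    have e1 := mul_nonneg hv (sub_nonneg.2 hx)
    have e2 := mul_nonneg hu hy
    linarith
  refine ⟨_, (1 - u) * (49 / 108 * (1 + (A + C + B)) * (1 + u + u ^ 2) -
      ((-28 / 3375 + 253 / 2700 * (A + B) + 307 / 2700 * C + C ^ 2 / 4
        - 8 / 25 * (A + B) * C - 233 / 625 * (A * B) + 64 / 625 * (A ^ 2 + B ^ 2)) +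
      u * (2669 / 13500 + 847 / 2700 * (A + B) + 793 / 2700 * C - 9 / 50 * (A + B) * C
      - 84 / 625 * (A * B) + 72 / 625 * (A ^ 2 + B ^ 2)) +
      u ^ 2 * (5693 / 13500 + 49 / 108 * (A + B + C) + 81 / 2500 * (A ^ 2 + B ^ 2)
      + 9 / 1250 * (A * B)))),
    admA (τ := 1 - u) (h1 := (1 - u) * (2 / 5)) (h2 := (1 - u) * (1 / 5)) (h3 := (1 - u) * (2 / 5))
    (c12 := (1 - u) * (1 / 2 + 17 / 25 * A - 2 / 25 * B + 1 / 2 * C) + u * ((1 + A + C - B) / 2))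
    (c13 := (1 - u) * (1 / 2 + 8 / 25 * A + 2 / 25 * B - 1 / 2 * C) + u * ((1 + A + B - C) / 2))
    (c21 := (1 - u) * (1 / 2 + 8 / 25 * A - 8 / 25 * B + 1 / 2 * C) + u * ((1 + C + A - B) / 2))
    (c23 := (1 - u) * (1 / 2 - 8 / 25 * A + 8 / 25 * B + 1 / 2 * C) + u * ((1 + C + B - A) / 2))
    (c31 := (1 - u) * (1 / 2 + 2 / 25 * A + 8 / 25 * B - 1 / 2 * C) + u * ((1 + B + A - C) / 2))
    (c32 := (1 - u) * (1 / 2 - 2 / 25 * A + 17 / 25 * B + 1 / 2 * C) + u * ((1 + B + C - A) / 2))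
    (by linarith) (by linarith) (by linarith) (by linarith) (by linarith) (by linarith)
    (by ring) (by linarith) (g1 _ _ _ (by linarith) (by linarith))
    (g1 _ _ _ (by linarith) (by linarith)) (g1 _ _ _ (by linarith) (by linarith))
    (g1 _ _ _ (by linarith) (by linarith)) (g1 _ _ _ (by linarith) (by linarith))
    (g1 _ _ _ (by linarith) (by linarith)) (by linarith) ?_ (by linarith) (by ring) (by ring)
    (by ring), ?_, ?_⟩
  · nlinarith
  · rw [det3_of]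
    ring
  · simp only [Fin.sum_univ_three, Matrix.cons_val_zero, Matrix.cons_val_one, Matrix.cons_val]
    refine good_of hu1 rfl ?_ ?_ ?_
    · have d0 : 0 < 231 / 500 + 17 / 50 * C - C ^ 2 / 4 + 9 / 25 * (A + B) + 8 / 25 * (A + B) * C
          + 233 / 625 * (A * B) - 64 / 625 * (A ^ 2 + B ^ 2) := by
        nlinarith [mul_nonneg hA0 hB0, mul_nonneg hA0 hC, mul_nonneg hB0 hC]
      have d1 : 0 ≤ 32 / 125 + 4 / 25 * C + 7 / 50 * (A + B) + 9 / 50 * (A + B) * C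
          + 84 / 625 * (A * B) - 72 / 625 * (A ^ 2 + B ^ 2) := by
        nlinarith [mul_nonneg hA0 hB0, mul_nonneg hA0 hC, mul_nonneg hB0 hC]
      have d2 : 0 < 231 / 500 + 17 / 50 * C - C ^ 2 / 4 + 9 / 25 * (A + B) + 8 / 25 * (A + B) * C
          + 233 / 625 * (A * B) - 64 / 625 * (A ^ 2 + B ^ 2) + (4 / 125 - 81 / 2500 * (A ^ 2 + B ^ 2)
          - 9 / 1250 * (A * B)) := by
        nlinarith [mul_nonneg hA0 hB0, mul_nonneg hA0 hC, mul_nonneg hB0 hC]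
      have e1 := mul_nonneg hu d1
      have e2 := mul_nonneg hu4 d2.le
      have e3 := mul_pos (show 0 < 1 - u ^ 2 by nlinarith) d0
      linarith
    · linarith
    · intro _
      linarith

end Pool.Agent.Helper47.CO
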