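import Pool.Agent.Helper47.CO.Final

/-!
# Truncated cones: the case of equality
-/

set_option autoImplicit false
namespace Pool.Agent.Helper47.CO
open MeasureTheory Filter Topology Metric
open scoped Pointwise ENNReal
open Pool.Agent.Helper84.Tet

/-- The affine independence of four points in terms of the three differences. -/
theorem affineIndependent_cons {p : E3} {q : Fin 3 → E3}
    (h : LinearIndependent ℝ (fun i => q i - p)) :
    AffineIndependent ℝ (Fin.cons p q : Fin 4 → E3) := by
  rw [affineIndependent_iff_linearIndependent_vsub ℝ _ (0 : Fin 4)]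
  rw [← linearIndependent_equiv (finSuccAboveEquiv (0 : Fin 4))]
  have e : ((fun i : {x : Fin 4 // x ≠ 0} => (Fin.cons p q : Fin 4 → E3) i -ᵥ
      (Fin.cons p q : Fin 4 → E3) 0) ∘ (finSuccAboveEquiv (0 : Fin 4))) =
      fun i => q i - p := by
    ext1 i
    simp [finSuccAboveEquiv_apply, vsub_eq_sub]
  rw [e]
  exact h

theorem linearIndependent_of_affine {v : Fin 4 → E3} (h : AffineIndependent ℝ v) :
    LinearIndependent ℝ (fun i : Fin 3 => v i.succ - v 0) := by
  rw [affineIndependent_iff_linearIndependent_vsub ℝ _ (0 : Fin 4)] at h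
  rw [← linearIndependent_equiv (finSuccAboveEquiv (0 : Fin 4))] at h
  have e : ((fun i : {x : Fin 4 // x ≠ 0} => v i -ᵥ v 0) ∘ (finSuccAboveEquiv (0 : Fin 4))) =
      fun i : Fin 3 => v i.succ - v 0 := by
    ext1 i
    simp [finSuccAboveEquiv_apply, vsub_eq_sub]
  rw [e] at h
  exact h

theorem Coord.tetrahedron {K Q : Set E3} {p : E3} {t : ℝ} {q : Fin 3 → E3}
    {b : Module.Basis (Fin 3) ℝ E3} {a : Fin 3 → ℝ} {r : Fin 3 → E3}
    (h : Coord K Q p t q b a r) (d : Data K Q p t) (ht : t = 0) (ha : ∑ i, a i = 0) :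
    IsTetrahedron K := by
  have ha' : ∀ i, a i = 0 := by
    intro i
    exact (Finset.sum_eq_zero_iff_of_nonneg (fun i _ => h.a0 i)).1 ha i (Finset.mem_univ i)
  refine ⟨Fin.cons p q, affineIndependent_cons ?_, ?_⟩
  · have := b.linearIndependent
    convert this using 1
    ext1 i
    exact (h.b_eq i).symm
  · rw [d.hull, ht]
    apply Set.Subset.antisymm
    · refine convexHull_min ?_ (convex_convexHull ℝ _)
      have hp : p ∈ convexHull ℝ (Set.range (Fin.cons p q : Fin 4 → E3)) :=
        subset_convexHull ℝ _ ⟨0, rfl⟩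
      rintro y (hy | ⟨z, hz, rfl⟩)
      · have hsum : ∑ i, b.repr (y - p) i = 1 := by rw [← sm_apply, h.sm_eq y hy]
        have e : y = ∑ i, b.repr (y - p) i • q i := by
          have e1 : y - p = ∑ i, b.repr (y - p) i • b i := (b.sum_repr (y - p)).symm
          have e2 : ∑ i, b.repr (y - p) i • b i = ∑ i, b.repr (y - p) i • q i - p := by
            have e3 : ∀ i, b.repr (y - p) i • b i =
                b.repr (y - p) i • q i - b.repr (y - p) i • p := by
              intro i; rw [h.b_eq, smul_sub]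
            rw [Finset.sum_congr rfl (fun i _ => e3 i), Finset.sum_sub_distrib, ← Finset.sum_smul,
              hsum, one_smul]
          rw [e2] at e1
          exact sub_left_injective e1
        rw [e]
        refine (convex_convexHull ℝ _).sum_mem (fun i _ => ?_) hsum (fun i _ => ?_)
        · have := h.low y hy i
          rw [ha'] at this
          linarith
        · exact subset_convexHull ℝ _ ⟨i.succ, rfl⟩
      · show p + (0 : ℝ) • (z - p) ∈ _
        rw [zero_smul, add_zero]
        exact hp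
    · refine convexHull_mono ?_
      rintro _ ⟨i, rfl⟩
      refine Fin.cases ?_ (fun j => ?_) i
      · right
        exact ⟨q 0, h.q_mem 0, by simp⟩
      · left
        exact h.q_mem j

/-- The vertices of the regular tetrahedron. -/
noncomputable def tv : Fin 4 → E3 :=
  ![!₂[1, 1, 1], !₂[1, -1, -1], !₂[-1, 1, -1], !₂[-1, -1, 1]]

theorem tetrahedron_eq : tetrahedron = convexHull ℝ (Set.range tv) := by
  unfold tetrahedron
  congr 1
  ext y
  simp only [Set.mem_insert_iff, Set.mem_singleton_iff, Set.mem_range]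
  constructor
  · rintro (rfl | rfl | rfl | rfl)
    · exact ⟨0, rfl⟩
    · exact ⟨1, rfl⟩
    · exact ⟨2, rfl⟩
    · exact ⟨3, rfl⟩
  · rintro ⟨i, rfl⟩
    fin_cases i
    · left; rfl
    · right; left; rfl
    · right; right; left; rfl
    · right; right; right; rfl

theorem tv_li : LinearIndependent ℝ (fun i : Fin 3 => tv i.succ - tv 0) ∧
    Submodule.span ℝ (Set.range (fun i : Fin 3 => tv i.succ - tv 0)) = ⊤ := by
  rw [std.is_basis_iff_det, isUnit_iff_ne_zero, Module.Basis.det_apply, Matrix.det_fin_three]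
  simp [Module.Basis.toMatrix_apply, tv]
  norm_num

theorem deltaL_le_of_tetrahedron {K : Set E3} (h : IsTetrahedron K) : deltaL K ≤ 18 / 49 := by
  obtain ⟨v, hv, rfl⟩ := h
  have hli := linearIndependent_of_affine hv
  let bv : Module.Basis (Fin 3) ℝ E3 := basisOfLinearIndependentOfCardEqFinrank hli (by simp)
  let bt : Module.Basis (Fin 3) ℝ E3 := Module.Basis.mk tv_li.1 tv_li.2.ge
  have hbv : ∀ i, bv i = v i.succ - v 0 := by intro i; simp [bv]
  have hbt : ∀ i, bt i = tv i.succ - tv 0 := by intro i; simp [bt]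
  let L : E3 ≃L[ℝ] E3 := (bt.equiv bv (Equiv.refl _)).toContinuousLinearEquiv
  have hL : ∀ i, L (bt i) = bv i := by
    intro i
    show (bt.equiv bv (Equiv.refl _)) (bt i) = bv i
    simp
  have hL' : ∀ i : Fin 4, v i = (v 0 - L (tv 0)) + L (tv i) := by
    intro i
    refine Fin.cases ?_ (fun j => ?_) i
    · abel
    · have h1 := hL j
      rw [hbt, hbv, map_sub] at h1
      have h2 : v j.succ = (v j.succ - v 0) + v 0 := by abel
      rw [h2, ← h1]; abel
  have hK : convexHull ℝ (Set.range v) = (v 0 - L (tv 0)) +ᵥ L '' tetrahedron := by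
    rw [tetrahedron_eq]
    have h1 : L '' convexHull ℝ (Set.range tv) = convexHull ℝ (L '' Set.range tv) :=
      (L : E3 →ₗ[ℝ] E3).image_convexHull _
    rw [h1, ← convexHull_vadd]
    congr 1
    ext y
    constructor
    · rintro ⟨i, rfl⟩
      exact ⟨L (tv i), ⟨tv i, ⟨i, rfl⟩, rfl⟩, (hL' i).symm⟩
    · rintro ⟨_, ⟨_, ⟨i, rfl⟩, rfl⟩, rfl⟩
      exact ⟨i, hL' i⟩
  have hcomp : IsCompact tetrahedron := by
    unfold tetrahedron
    exact Set.Finite.isCompact_convexHull ℝ (Set.toFinite _)
  rw [hK]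
  exact (deltaL_image_le hcomp L _).trans deltaL_tetrahedron_le

/-- The main theorem. -/
theorem main_cone {K : Set E3} (hK : IsConvexBody K) (h : IsTruncatedCone K) :
    18 / 49 ≤ deltaL K ∧ (deltaL K = 18 / 49 ↔ IsTetrahedron K) := by
  obtain ⟨Q, p, t, f, c, d, hf, hfc⟩ := h.data
  obtain ⟨q, b, a, r, hco⟩ := d.exists_coord hK.interior_nonempty hf hfc
  obtain ⟨h1, h2⟩ := hco.bound d hK.isCompact
  refine ⟨h1, ?_, fun h3 => le_antisymm (deltaL_le_of_tetrahedron h3) h1⟩
  intro h3
  have h4 : ¬ (0 < t ∨ (0 < ∑ i, a i ∧ ∑ i, a i < 3)) := fun h5 => (h2 h5).ne' h3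
  push Not at h4
  have h0 : t = 0 := le_antisymm h4.1 d.t0
  have hs0 : 0 ≤ ∑ i, a i := Finset.sum_nonneg (fun i _ => hco.a0 i)
  have hs : ∑ i, a i = 0 := by
    by_contra hne
    have h5 := h4.2 (lt_of_le_of_ne hs0 (Ne.symm hne))
    exact absurd hco.sum_lt (not_lt.2 h5)
  exact hco.tetrahedron d h0 hs

end Pool.Agent.Helper47.CO
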