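import Mathlib

/-!
# Lattices for cones: the two families of lattices

A cone over a plane convex body is described by the numbers `a i ∈ [0, 1]`; a difference vector
is described by its three coordinates `w i`, the height difference being `-(w 0 + w 1 + w 2)`.
-/

set_option autoImplicit false
namespace Pool.Agent.Helper47.CO

/-- A vector with coordinates `w` and nonnegative height is not the difference of two interior
points; here `τ` is the height of the body (`τ = 1` for a cone). -/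
def Exc (τ : ℝ) (a w : Fin 3 → ℝ) : Prop :=
  ∑ j, w j ≤ -τ ∨ ∃ i, 1 + a i + ∑ j, w j ≤ w i ∨ w i ≤ -1 - a i - a i * ∑ j, w j

/-- The lattice with generators the rows of `M` has no nonzero vector of nonnegative height which
is the difference of two interior points. -/
def Adm (τ : ℝ) (a : Fin 3 → ℝ) (M : Matrix (Fin 3) (Fin 3) ℝ) : Prop :=
  ∀ n : Fin 3 → ℤ, n ≠ 0 → (∑ j, ∑ i, (n i : ℝ) * M i j) ≤ 0 →
    Exc τ a (fun j => ∑ i, (n i : ℝ) * M i j)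

theorem int_cases (n : ℤ) : (1 : ℝ) ≤ n ∨ (n : ℝ) ≤ 0 := by
  rcases le_or_gt n 0 with h | h
  · right; exact_mod_cast h
  · left; exact_mod_cast h

/-- The first family. -/
theorem famA {τ a1 a2 a3 h1 h2 h3 c12 c13 c21 c23 c31 c32 : ℝ}
    (ha1 : 0 ≤ a1) (ha2 : 0 ≤ a2) (ha3 : 0 ≤ a3) (hh1 : 0 < h1) (hh2 : 0 < h2) (hh3 : 0 < h3)
    (hs : h1 + h2 + h3 = τ) (hτ : τ ≤ 1) (k12 : h1 ≤ c12) (k13 : h1 ≤ c13) (k21 : h2 ≤ c21) (k23 : h2 ≤ c23)
    (k31 : h3 ≤ c31) (k32 : h3 ≤ c32) (col1 : 1 + a1 * (1 - h2 - h3) ≤ c21 + c31)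
    (col2 : 1 + a2 * (1 - h1 - h3) ≤ c12 + c32)
    (col3 : 1 + a3 * (1 - h1 - h2) ≤ c13 + c23) (n1 n2 n3 : ℤ)
    (hn : ¬ (n1 = 0 ∧ n2 = 0 ∧ n3 = 0)) {H : ℝ} (hHdef : H = n1 * h1 + n2 * h2 + n3 * h3)
    (hH : 0 ≤ H) :
    τ ≤ H ∨
    (1 + a1 - H ≤ n1 * (1 - h1 + a1) - n2 * c21 - n3 * c31 ∨
      n1 * (1 - h1 + a1) - n2 * c21 - n3 * c31 ≤ -1 - a1 + a1 * H) ∨
    (1 + a2 - H ≤ n2 * (1 - h2 + a2) - n1 * c12 - n3 * c32 ∨
      n2 * (1 - h2 + a2) - n1 * c12 - n3 * c32 ≤ -1 - a2 + a2 * H) ∨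
    (1 + a3 - H ≤ n3 * (1 - h3 + a3) - n1 * c13 - n2 * c23 ∨
      n3 * (1 - h3 + a3) - n1 * c13 - n2 * c23 ≤ -1 - a3 + a3 * H) := by
  rcases int_cases n1 with m1 | m1 <;> rcases int_cases n2 with m2 | m2 <;>
    rcases int_cases n3 with m3 | m3
  · left
    have e1 := mul_nonneg (sub_nonneg.2 m1) hh1.le
    have e2 := mul_nonneg (sub_nonneg.2 m2) hh2.le
    have e3 := mul_nonneg (sub_nonneg.2 m3) hh3.le
    rw [hHdef]; linarith
  · right; right; right; right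
    have e1 := mul_nonneg (sub_nonneg.2 m1) (sub_nonneg.2 k13)
    have e2 := mul_nonneg (sub_nonneg.2 m2) (sub_nonneg.2 k23)
    have e3 := mul_nonneg (sub_nonneg.2 m1) hh1.le
    have e4 := mul_nonneg (sub_nonneg.2 m2) hh2.le
    have e5 := mul_nonneg ha3 e3
    have e6 := mul_nonneg ha3 e4
    have e7 := mul_nonneg (mul_nonneg (neg_nonneg.2 m3) (by linarith : (0:ℝ) ≤ 1 - h3))
      (by linarith : (0:ℝ) ≤ 1 + a3)
    rw [hHdef]; nlinarith
  · right; right; left; right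
    have e1 := mul_nonneg (sub_nonneg.2 m1) (sub_nonneg.2 k12)
    have e2 := mul_nonneg (sub_nonneg.2 m3) (sub_nonneg.2 k32)
    have e3 := mul_nonneg (sub_nonneg.2 m1) hh1.le
    have e4 := mul_nonneg (sub_nonneg.2 m3) hh3.le
    have e5 := mul_nonneg ha2 e3
    have e6 := mul_nonneg ha2 e4
    have e7 := mul_nonneg (mul_nonneg (neg_nonneg.2 m2) (by linarith : (0:ℝ) ≤ 1 - h2))
      (by linarith : (0:ℝ) ≤ 1 + a2)
    rw [hHdef]; nlinarith
  · right; left; left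
    have e1 := mul_nonneg (sub_nonneg.2 m1) (by linarith : (0:ℝ) ≤ 1 + a1)
    have e2 := mul_nonneg (neg_nonneg.2 m2) (sub_nonneg.2 k21)
    have e3 := mul_nonneg (neg_nonneg.2 m3) (sub_nonneg.2 k31)
    rw [hHdef]; nlinarith
  · right; left; right
    have e1 := mul_nonneg (sub_nonneg.2 m2) (sub_nonneg.2 k21)
    have e2 := mul_nonneg (sub_nonneg.2 m3) (sub_nonneg.2 k31)
    have e3 := mul_nonneg (sub_nonneg.2 m2) hh2.le
    have e4 := mul_nonneg (sub_nonneg.2 m3) hh3.le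
    have e5 := mul_nonneg ha1 e3
    have e6 := mul_nonneg ha1 e4
    have e7 := mul_nonneg (mul_nonneg (neg_nonneg.2 m1) (by linarith : (0:ℝ) ≤ 1 - h1))
      (by linarith : (0:ℝ) ≤ 1 + a1)
    rw [hHdef]; nlinarith
  · right; right; left; left
    have e1 := mul_nonneg (sub_nonneg.2 m2) (by linarith : (0:ℝ) ≤ 1 + a2)
    have e2 := mul_nonneg (neg_nonneg.2 m1) (sub_nonneg.2 k12)
    have e3 := mul_nonneg (neg_nonneg.2 m3) (sub_nonneg.2 k32)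
    rw [hHdef]; nlinarith
  · right; right; right; left
    have e1 := mul_nonneg (sub_nonneg.2 m3) (by linarith : (0:ℝ) ≤ 1 + a3)
    have e2 := mul_nonneg (neg_nonneg.2 m1) (sub_nonneg.2 k13)
    have e3 := mul_nonneg (neg_nonneg.2 m2) (sub_nonneg.2 k23)
    rw [hHdef]; nlinarith
  · exfalso
    have e1 := mul_nonneg (neg_nonneg.2 m1) hh1.le
    have e2 := mul_nonneg (neg_nonneg.2 m2) hh2.le
    have e3 := mul_nonneg (neg_nonneg.2 m3) hh3.le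
    apply hn
    have z : ∀ (n : ℤ) (h : ℝ), 0 < h → -(n : ℝ) * h = 0 → n = 0 := by
      intro n h hh hz
      rcases mul_eq_zero.1 hz with h0 | h0
      · exact_mod_cast neg_eq_zero.1 h0
      · exact absurd h0 hh.ne'
    refine ⟨z n1 h1 hh1 ?_, z n2 h2 hh2 ?_, z n3 h3 hh3 ?_⟩ <;> nlinarith

/-- The second family. -/
theorem famB {τ a1 a2 a3 h1 h2 h3 c12 c13 c21 c23 c31 c32 : ℝ}
    (ha1 : 0 ≤ a1) (ha2 : 0 ≤ a2) (ha3 : 0 ≤ a3) (hh1 : 0 < h1) (hh2 : 0 < h2) (hh3 : 0 < h3)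
    (hs : h1 + h2 + h3 = τ) (hτ : τ ≤ 1) (k12 : a2 * h1 ≤ c12) (k13 : a3 * h1 ≤ c13) (k21 : a1 * h2 ≤ c21)
    (k23 : a3 * h2 ≤ c23) (k31 : a1 * h3 ≤ c31) (k32 : a2 * h3 ≤ c32)
    (col1 : 1 + a1 - h2 - h3 ≤ c21 + c31) (col2 : 1 + a2 - h1 - h3 ≤ c12 + c32)
    (col3 : 1 + a3 - h1 - h2 ≤ c13 + c23)
    (n1 n2 n3 : ℤ)
    (hn : ¬ (n1 = 0 ∧ n2 = 0 ∧ n3 = 0)) {H : ℝ} (hHdef : H = n1 * h1 + n2 * h2 + n3 * h3)
    (hH : 0 ≤ H) :
    τ ≤ H ∨
    (1 + a1 - H ≤ n1 * (-1 - a1 * (1 - h1)) + n2 * c21 + n3 * c31 ∨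
      n1 * (-1 - a1 * (1 - h1)) + n2 * c21 + n3 * c31 ≤ -1 - a1 + a1 * H) ∨
    (1 + a2 - H ≤ n2 * (-1 - a2 * (1 - h2)) + n1 * c12 + n3 * c32 ∨
      n2 * (-1 - a2 * (1 - h2)) + n1 * c12 + n3 * c32 ≤ -1 - a2 + a2 * H) ∨
    (1 + a3 - H ≤ n3 * (-1 - a3 * (1 - h3)) + n1 * c13 + n2 * c23 ∨
      n3 * (-1 - a3 * (1 - h3)) + n1 * c13 + n2 * c23 ≤ -1 - a3 + a3 * H) := by
  rcases int_cases n1 with m1 | m1 <;> rcases int_cases n2 with m2 | m2 <;>
    rcases int_cases n3 with m3 | m3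
  · left
    have e1 := mul_nonneg (sub_nonneg.2 m1) hh1.le
    have e2 := mul_nonneg (sub_nonneg.2 m2) hh2.le
    have e3 := mul_nonneg (sub_nonneg.2 m3) hh3.le
    rw [hHdef]; linarith
  · right; right; right; left
    have f1 : 0 ≤ c13 := le_trans (mul_nonneg ha3 hh1.le) k13
    have f2 : 0 ≤ c23 := le_trans (mul_nonneg ha3 hh2.le) k23
    have e1 := mul_nonneg (sub_nonneg.2 m1) f1
    have e2 := mul_nonneg (sub_nonneg.2 m2) f2
    have e3 := mul_nonneg (sub_nonneg.2 m1) hh1.le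
    have e4 := mul_nonneg (sub_nonneg.2 m2) hh2.le
    have e7 := mul_nonneg (mul_nonneg (neg_nonneg.2 m3) (by linarith : (0:ℝ) ≤ 1 - h3))
      (by linarith : (0:ℝ) ≤ 1 + a3)
    rw [hHdef]; nlinarith
  · right; right; left; left
    have f1 : 0 ≤ c12 := le_trans (mul_nonneg ha2 hh1.le) k12
    have f2 : 0 ≤ c32 := le_trans (mul_nonneg ha2 hh3.le) k32
    have e1 := mul_nonneg (sub_nonneg.2 m1) f1
    have e2 := mul_nonneg (sub_nonneg.2 m3) f2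
    have e3 := mul_nonneg (sub_nonneg.2 m1) hh1.le
    have e4 := mul_nonneg (sub_nonneg.2 m3) hh3.le
    have e7 := mul_nonneg (mul_nonneg (neg_nonneg.2 m2) (by linarith : (0:ℝ) ≤ 1 - h2))
      (by linarith : (0:ℝ) ≤ 1 + a2)
    rw [hHdef]; nlinarith
  · right; left; right
    have e1 := mul_nonneg (sub_nonneg.2 m1) (by linarith : (0:ℝ) ≤ 1 + a1)
    have e2 := mul_nonneg (neg_nonneg.2 m2) (sub_nonneg.2 k21)
    have e3 := mul_nonneg (neg_nonneg.2 m3) (sub_nonneg.2 k31)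
    rw [hHdef]; nlinarith
  · right; left; left
    have f1 : 0 ≤ c21 := le_trans (mul_nonneg ha1 hh2.le) k21
    have f2 : 0 ≤ c31 := le_trans (mul_nonneg ha1 hh3.le) k31
    have e1 := mul_nonneg (sub_nonneg.2 m2) f1
    have e2 := mul_nonneg (sub_nonneg.2 m3) f2
    have e3 := mul_nonneg (sub_nonneg.2 m2) hh2.le
    have e4 := mul_nonneg (sub_nonneg.2 m3) hh3.le
    have e7 := mul_nonneg (mul_nonneg (neg_nonneg.2 m1) (by linarith : (0:ℝ) ≤ 1 - h1))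
      (by linarith : (0:ℝ) ≤ 1 + a1)
    rw [hHdef]; nlinarith
  · right; right; left; right
    have e1 := mul_nonneg (sub_nonneg.2 m2) (by linarith : (0:ℝ) ≤ 1 + a2)
    have e2 := mul_nonneg (neg_nonneg.2 m1) (sub_nonneg.2 k12)
    have e3 := mul_nonneg (neg_nonneg.2 m3) (sub_nonneg.2 k32)
    rw [hHdef]; nlinarith
  · right; right; right; right
    have e1 := mul_nonneg (sub_nonneg.2 m3) (by linarith : (0:ℝ) ≤ 1 + a3)
    have e2 := mul_nonneg (neg_nonneg.2 m1) (sub_nonneg.2 k13)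
    have e3 := mul_nonneg (neg_nonneg.2 m2) (sub_nonneg.2 k23)
    rw [hHdef]; nlinarith
  · exfalso
    have e1 := mul_nonneg (neg_nonneg.2 m1) hh1.le
    have e2 := mul_nonneg (neg_nonneg.2 m2) hh2.le
    have e3 := mul_nonneg (neg_nonneg.2 m3) hh3.le
    apply hn
    have z : ∀ (n : ℤ) (h : ℝ), 0 < h → -(n : ℝ) * h = 0 → n = 0 := by
      intro n h hh hz
      rcases mul_eq_zero.1 hz with h0 | h0
      · exact_mod_cast neg_eq_zero.1 h0
      · exact absurd h0 hh.ne'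
    refine ⟨z n1 h1 hh1 ?_, z n2 h2 hh2 ?_, z n3 h3 hh3 ?_⟩ <;> nlinarith

end Pool.Agent.Helper47.CO
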