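import Pool.Agent.Helper47.CO.Main

/-!
# Truncated cones: the lower bound and the case of equality
-/

set_option autoImplicit false
namespace Pool.Agent.Helper47.CO
open MeasureTheory Filter Topology Metric
open scoped Pointwise ENNReal
open Pool.Agent.Helper84.Tet

/-- The coordinates of the base. -/
structure Coord (K Q : Set E3) (p : E3) (t : ℝ) (q : Fin 3 → E3)
    (b : Module.Basis (Fin 3) ℝ E3) (a : Fin 3 → ℝ) (r : Fin 3 → E3) : Prop where
  q_mem : ∀ i, q i ∈ Q
  b_eq : ∀ i, b i = q i - p
  max : ∀ q' : Fin 3 → E3, (∀ i, q' i ∈ Q) → |std.det (fun i => q' i - p)| ≤ |std.det b|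
  abs1 : ∀ x ∈ Q, ∀ i, |b.repr (x - p) i| ≤ 1
  sm_eq : ∀ x ∈ Q, sm b (x - p) = 1
  r_mem : ∀ i, r i ∈ Q
  r_eq : ∀ i, b.repr (r i - p) i = -a i
  low : ∀ x ∈ Q, ∀ i, -a i ≤ b.repr (x - p) i
  a0 : ∀ i, 0 ≤ a i
  a1 : ∀ i, a i ≤ 1

theorem Data.exists_coord {K Q : Set E3} {p : E3} {t : ℝ} (d : Data K Q p t)
    (hne : (interior K).Nonempty) {f : E3 →ₗ[ℝ] ℝ} {c : ℝ} (hf : f ≠ 0)
    (hfc : ∀ x ∈ Q, f x = c) : ∃ (q : Fin 3 → E3) (b : Module.Basis (Fin 3) ℝ E3)
      (a : Fin 3 → ℝ) (r : Fin 3 → E3), Coord K Q p t q b a r := by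
  obtain ⟨q, b, hq, hb, hmax⟩ := d.exists_max hne
  have hb0 : 0 < |std.det b| := abs_pos.2 (std.isUnit_det b).ne_zero
  have habs : ∀ x ∈ Q, ∀ i, |b.repr (x - p) i| ≤ 1 := by
    intro x hx i
    have h1 := hmax (Function.update q i x) (by
      intro j
      by_cases hj : j = i
      · rw [hj, Function.update_self]; exact hx
      · rw [Function.update_of_ne hj]; exact hq j)
    have h2 : (fun j => Function.update q i x j - p) = Function.update b i (x - p) := by
      ext1 j
      by_cases hj : j = i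
      · rw [hj, Function.update_self, Function.update_self]
      · rw [Function.update_of_ne hj, Function.update_of_ne hj, hb]
    rw [h2, std_det_update, abs_mul] at h1
    by_contra hcon
    push Not at hcon
    have := mul_lt_mul_of_pos_left hcon hb0
    linarith
  -- the height functional
  have hd : c - f p ≠ 0 := by
    intro h
    apply hf
    apply d.eq_zero hne
    intro x hx
    rw [map_sub, hfc x hx]; exact h
  have hsm : ∀ x ∈ Q, sm b (x - p) = 1 := by
    intro x hx
    have hfb : ∀ i, f (b i) = c - f p := by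
      intro i
      rw [hb i, map_sub, hfc _ (hq i)]
    have h1 : f (x - p) = ∑ i, b.repr (x - p) i * (c - f p) := by
      conv_lhs => rw [← b.sum_repr (x - p)]
      rw [map_sum]
      refine Finset.sum_congr rfl (fun i _ => ?_)
      rw [map_smul, smul_eq_mul, hfb]
    rw [← Finset.sum_mul, ← sm_apply, map_sub, hfc x hx] at h1
    have h2 : (sm b (x - p) - 1) * (c - f p) = 0 := by linarith
    rcases mul_eq_zero.1 h2 with h | h
    · linarith
    · exact absurd h hd
  have hQne : Q.Nonempty := ⟨q 0, hq 0⟩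
  have hex : ∀ i, ∃ r ∈ Q, ∀ x ∈ Q, b.repr (r - p) i ≤ b.repr (x - p) i := by
    intro i
    obtain ⟨r, hr, hmin⟩ := d.compact.exists_isMinOn hQne (continuous_coord b p i).continuousOn
    exact ⟨r, hr, fun x hx => hmin hx⟩
  choose r hr hmin using hex
  refine ⟨q, b, fun i => -b.repr (r i - p) i, r, hq, hb, hmax, habs, hsm, hr, ?_, ?_, ?_, ?_⟩
  · intro i; simp
  · intro x hx i
    simpa using hmin i x hx
  · intro i
    obtain ⟨j, hj⟩ : ∃ j : Fin 3, j ≠ i := exists_ne i
    have h1 := hmin i (q j) (hq j)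
    rw [← hb j, b.repr_self, Finsupp.single_apply, if_neg hj] at h1
    show 0 ≤ -b.repr (r i - p) i
    linarith
  · intro i
    have h1 := habs (r i) (hr i) i
    have h2 := (abs_le.1 h1).1
    show -b.repr (r i - p) i ≤ 1
    linarith

theorem Coord.nonneg {K Q : Set E3} {p : E3} {t : ℝ} {q : Fin 3 → E3}
    {b : Module.Basis (Fin 3) ℝ E3} {a : Fin 3 → ℝ} {r : Fin 3 → E3}
    (h : Coord K Q p t q b a r) (i j : Fin 3) (hij : j ≠ i) : a i ≤ b.repr (r i - p) j := by
  have h1 := h.sm_eq (r i) (h.r_mem i)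
  rw [sm_apply, Fin.sum_univ_three] at h1
  have h2 := h.r_eq i
  have h3 : ∀ k, b.repr (r i - p) k ≤ 1 := fun k => (abs_le.1 (h.abs1 _ (h.r_mem i) k)).2
  have g0 := h3 0
  have g1 := h3 1
  have g2 := h3 2
  fin_cases i <;> fin_cases j <;> first
    | exact absurd rfl hij
    | (simp only [Fin.zero_eta, Fin.mk_one, Fin.reduceFinMk] at h1 h2 g0 g1 g2 ⊢; linarith)

theorem Coord.region {K Q : Set E3} {p : E3} {t : ℝ} {q : Fin 3 → E3}
    {b : Module.Basis (Fin 3) ℝ E3} {a : Fin 3 → ℝ} {r : Fin 3 → E3}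
    (h : Coord K Q p t q b a r) (d : Data K Q p t) : InRegion b p t a K := by
  have ht := d.t0
  have ht1 := d.t1
  -- a linear inequality holds on `K` if it holds on the generators
  have key : ∀ (g : E3 →ₗ[ℝ] ℝ) (c : ℝ), (∀ x ∈ Q, g (x - p) ≤ c ∧ t * g (x - p) ≤ c) →
      ∀ x ∈ K, g (x - p) ≤ c := by
    intro g c hg x hx
    rw [d.hull] at hx
    have h1 := hull_le (g := g) (c := c + g p) (by
      rintro y (hy | ⟨z, hz, rfl⟩)
      · have := (hg y hy).1
        rw [map_sub] at this; linarith
      · have := (hg z hz).2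
        show g (p + t • (z - p)) ≤ c + g p
        rw [map_add, map_smul, smul_eq_mul]; linarith) x hx
    rw [map_sub]; linarith
  have hup : ∀ x ∈ Q, ∀ i, b.repr (x - p) i ≤ 1 := fun x hx i => (abs_le.1 (h.abs1 x hx i)).2
  constructor
  · exact key (sm b) 1 (fun x hx => by rw [h.sm_eq x hx]; constructor <;> linarith)
  · intro x hx
    have := key (-sm b) (-t) (fun x hx => by
      rw [LinearMap.neg_apply, h.sm_eq x hx]; constructor <;> linarith) x hx
    rw [LinearMap.neg_apply] at this
    linarith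
  · intro x hx i
    have := key (b.coord i - sm b) 0 (fun x hx => by
      rw [LinearMap.sub_apply, h.sm_eq x hx, Module.Basis.coord_apply]
      have h1 := hup x hx i
      constructor
      · linarith
      · have := mul_nonneg ht (sub_nonneg.2 h1)
        linarith) x hx
    rw [LinearMap.sub_apply, Module.Basis.coord_apply] at this
    linarith
  · intro x hx i
    have := key (-(b.coord i) - a i • sm b) 0 (fun x hx => by
      rw [LinearMap.sub_apply, LinearMap.smul_apply, LinearMap.neg_apply, h.sm_eq x hx,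
        Module.Basis.coord_apply, smul_eq_mul]
      have h1 := h.low x hx i
      constructor
      · linarith
      · have := mul_nonneg ht (sub_nonneg.2 h1)
        linarith) x hx
    rw [LinearMap.sub_apply, LinearMap.smul_apply, LinearMap.neg_apply,
      Module.Basis.coord_apply, smul_eq_mul] at this
    linarith

theorem Coord.bound {K Q : Set E3} {p : E3} {t : ℝ} {q : Fin 3 → E3}
    {b : Module.Basis (Fin 3) ℝ E3} {a : Fin 3 → ℝ} {r : Fin 3 → E3}
    (h : Coord K Q p t q b a r) (d : Data K Q p t) (hK : IsCompact K) :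
    18 / 49 ≤ deltaL K ∧
      (0 < t ∨ (0 < ∑ i, a i ∧ ∑ i, a i < 3) → 18 / 49 < deltaL K) := by
  refine density_bound hK d.t0 d.t1 h.a0 h.a1 (h.region d) ?_
  refine le_vol_body (p := p) hK d.t0 d.t1 h.a0 (fun i => r i - p) h.r_eq
    (fun i j hij => (h.a0 i).trans (h.nonneg i j hij)) ?_ ?_
  · intro x hx
    have := d.mem_of h.q_mem hx
    simpa only [h.b_eq] using this
  · intro i x hx
    have := d.mem_of (w := Function.update q i (r i)) (by
      intro j
      by_cases hj : j = i
      · rw [hj, Function.update_self]; exact h.r_mem i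
      · rw [Function.update_of_ne hj]; exact h.q_mem j) hx
    convert this using 3 with j
    by_cases hj : j = i
    · rw [hj, Function.update_self, Function.update_self]
    · rw [Function.update_of_ne hj, Function.update_of_ne hj, h.b_eq]

theorem Coord.sum_lt {K Q : Set E3} {p : E3} {t : ℝ} {q : Fin 3 → E3}
    {b : Module.Basis (Fin 3) ℝ E3} {a : Fin 3 → ℝ} {r : Fin 3 → E3}
    (h : Coord K Q p t q b a r) : ∑ i, a i < 3 := by
  by_contra hcon
  push Not at hcon
  rw [Fin.sum_univ_three] at hcon
  have ha : ∀ i, a i = 1 := by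
    have h0 := h.a1 0
    have h1 := h.a1 1
    have h2 := h.a1 2
    intro i
    fin_cases i
    · show a 0 = 1; linarith
    · show a 1 = 1; linarith
    · show a 2 = 1; linarith
  have hc : ∀ i j, b.repr (r i - p) j = if j = i then -1 else 1 := by
    intro i j
    by_cases hj : j = i
    · rw [if_pos hj, hj, h.r_eq, ha]
    · rw [if_neg hj]
      have h1 := h.nonneg i j hj
      have h2 := (abs_le.1 (h.abs1 _ (h.r_mem i) j)).2
      rw [ha] at h1
      linarith
  have h1 := h.max r h.r_mem
  have hb0 : 0 < |std.det b| := abs_pos.2 (std.isUnit_det b).ne_zero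
  rw [AlternatingMap.eq_smul_basis_det b std.det, AlternatingMap.smul_apply, smul_eq_mul,
    AlternatingMap.smul_apply, smul_eq_mul, b.det_self, mul_one] at h1
  have h2 : b.det (fun i => r i - p) = 4 := by
    rw [Module.Basis.det_apply, Matrix.det_fin_three]
    simp (decide := true) only [Module.Basis.toMatrix_apply, hc, if_true, if_false]
    norm_num
  rw [h2, abs_mul] at h1
  have h4 : |(4 : ℝ)| = 4 := by norm_num
  rw [h4] at h1
  have : std.det b = std.det b := rfl
  nlinarith [hb0]

end Pool.Agent.Helper47.CO
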