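import Pool.Agent.Helper47.CO.FiveChart

/-!
# Polytopes with at most five vertices
-/

set_option autoImplicit false
namespace Pool.Agent.Helper47.CO
open MeasureTheory Filter Topology Metric
open scoped Pointwise ENNReal
open Pool.Agent.Helper84.Tet

theorem mem_of_convex {K : Set E3} (hc : Convex ℝ K) {p : E3} (hp : p ∈ K) {w : Fin 3 → E3}
    (hw : ∀ j, w j ∈ K) {x : E3} (hx : x ∈ TS 0) : p + ∑ j, x j • (w j - p) ∈ K := by
  obtain ⟨hx0, hx1, hx2⟩ := hx
  set s := ∑ i, x i with hs
  have hyK : ∑ j, (x j / s) • w j ∈ K := by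
    refine hc.sum_mem (fun j _ => div_nonneg (hx0 j).le hx1.le) ?_ (fun j _ => hw j)
    rw [← Finset.sum_div, ← hs, div_self hx1.ne']
  have h3 := hc hp hyK (a := 1 - s) (b := s) (by linarith) hx1.le (by ring)
  convert h3 using 1
  rw [Finset.smul_sum]
  simp only [smul_sub, Finset.sum_sub_distrib, smul_smul]
  rw [← Finset.sum_smul, ← hs]
  have e : ∀ j, s * (x j / s) = x j := fun j => mul_div_cancel₀ _ hx1.ne'
  simp only [e]
  module

theorem repr_update (b : Module.Basis (Fin 3) ℝ E3) (i : Fin 3) (r : E3) (x : Fin 3 → ℝ)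
    (j : Fin 3) : b.repr (∑ k, x k • Function.update b i r k) j =
      x i * b.repr r j + (if j = i then 0 else x j) := by
  rw [← Finset.add_sum_erase _ _ (Finset.mem_univ i), Function.update_self, map_add, map_smul]
  have e2 : ∑ k ∈ Finset.univ.erase i, x k • Function.update b i r k =
      ∑ k ∈ Finset.univ.erase i, x k • b k := by
    refine Finset.sum_congr rfl (fun k hk => ?_)
    rw [Function.update_of_ne (Finset.ne_of_mem_erase hk)]
  rw [e2, Finsupp.add_apply, Finsupp.smul_apply, smul_eq_mul]
  congr 1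
  simp only [map_sum, map_smul, Module.Basis.repr_self, Finsupp.coe_finsetSum,
    Finset.sum_apply, Finsupp.smul_apply, Finsupp.single_apply, smul_eq_mul, mul_ite,
    mul_one, mul_zero]
  rw [Finset.sum_ite_eq']
  simp

theorem vol_ge_of_pieces {ι : Type*} [Fintype ι] {K : Set E3} (P : ι → Set E3)
    (hd : Pairwise (Function.onFun Disjoint P)) (hm : ∀ i, MeasurableSet (P i))
    (hs : ∀ i, P i ⊆ K) (c : ι → ℝ) (hc : ∀ i, 0 ≤ c i)
    (h : ∀ i, ENNReal.ofReal (c i) ≤ volume (P i)) :
    ENNReal.ofReal (∑ i, c i) ≤ volume K := by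
  have h2 : ∑ k, volume (P k) ≤ volume K := by
    rw [← tsum_fintype (L := .unconditional _), ← measure_iUnion hd hm]
    exact measure_mono (Set.iUnion_subset hs)
  rw [ENNReal.ofReal_sum_of_nonneg (fun i _ => hc i)]
  exact (Finset.sum_le_sum (fun i _ => h i)).trans h2

theorem update_sub (b : Module.Basis (Fin 3) ℝ E3) {q : Fin 4 → E3}
    (hb : ∀ i, b i = q i.succ - q 0) (e : E3) (i : Fin 3) (k : Fin 3) :
    Function.update b i (e - q 0) k = Function.update (fun i : Fin 3 => q i.succ) i e k - q 0 := by
  by_cases hk : k = i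
  · rw [hk, Function.update_self, Function.update_self]
  · rw [Function.update_of_ne hk, Function.update_of_ne hk, hb]

section vol
variable {K : Set E3} {q : Fin 4 → E3} {e : E3} {B : Fin 4 → ℝ}
  {b : Module.Basis (Fin 3) ℝ E3}

theorem Five.mem_q (h : Five K q e B) (i : Fin 4) : q i ∈ K := by
  rw [h.hull]; exact subset_convexHull ℝ _ (Or.inr ⟨i, rfl⟩)

theorem Five.mem_e (h : Five K q e B) : e ∈ K := by
  rw [h.hull]; exact subset_convexHull ℝ _ (Or.inl rfl)

theorem Five.convex (h : Five K q e B) : Convex ℝ K := by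
  rw [h.hull]; exact convex_convexHull ℝ _

/-- The tetrahedron of the four points. -/
theorem Five.vol0 (h : Five K q e B) (hb : ∀ i, b i = q i.succ - q 0) {G : Set E3}
    (hG : ∀ y ∈ K, (∀ j, 0 < b.repr (y - q 0) j) → y ∈ G) :
    ENNReal.ofReal (|std.det b| / 6) ≤ volume G := by
  have := le_vol_image (u := 0) le_rfl b (q 0) (G := G) (by
    intro x hx
    apply hG
    · have := mem_of_convex h.convex (h.mem_q 0) (w := fun i : Fin 3 => q i.succ)
        (fun j => h.mem_q _) hx
      simpa only [hb] using this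
    · intro j
      rw [add_sub_cancel_left]
      have : b.repr (∑ i, x i • b i) j = x j := by simp [Finsupp.single_apply]
      rw [this]
      exact hx.1 j)
  convert this using 2
  ring

/-- The tetrahedron in which the vertex `i` is replaced by the fifth vertex. -/
theorem Five.vol1 (h : Five K q e B) (hb : ∀ i, b i = q i.succ - q 0)
    (he : ∀ i, b.repr (e - q 0) i = B i.succ) (i : Fin 3) {G : Set E3}
    (hG : ∀ y ∈ K, ∀ x : Fin 3 → ℝ, (∀ j, 0 < x j) → (∀ j, b.repr (y - q 0) j =
      x i * B j.succ + (if j = i then 0 else x j)) → y ∈ G) :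
    ENNReal.ofReal (|std.det b| * |B i.succ| / 6) ≤ volume G := by
  have := le_vol_image (u := 0) le_rfl (Function.update b i (e - q 0)) (q 0) (G := G) (by
    intro x hx
    refine hG _ ?_ x hx.1 ?_
    · have := mem_of_convex h.convex (h.mem_q 0)
        (w := Function.update (fun i : Fin 3 => q i.succ) i e) (by
          intro j
          by_cases hj : j = i
          · rw [hj, Function.update_self]; exact h.mem_e
          · rw [Function.update_of_ne hj]; exact h.mem_q _) hx
      simpa only [update_sub b hb] using this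
    · intro j
      rw [add_sub_cancel_left, repr_update, he])
  rw [std_det_update, he, abs_mul] at this
  convert this using 2
  ring

theorem Five.vol_one (h : Five K q e B) (hK : IsCompact K) (hb : ∀ i, b i = q i.succ - q 0)
    (he : ∀ i, b.repr (e - q 0) i = B i.succ) (h3 : B 3 < 0) :
    ENNReal.ofReal (|std.det b| * (1 - B 3) / 6) ≤ volume K := by
  have hb0 : 0 ≤ |std.det b| := abs_nonneg _
  have hc := continuous_coord b (q 0) 2
  have key := vol_ge_of_pieces (K := K)
    (fun k : Bool => if k then {y | y ∈ K ∧ 0 < b.repr (y - q 0) 2}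
      else {y | y ∈ K ∧ b.repr (y - q 0) 2 < 0}) ?_ ?_ ?_
    (fun k : Bool => if k then |std.det b| / 6 else |std.det b| * |B 3| / 6) ?_ ?_
  · refine le_trans (le_of_eq ?_) key
    congr 1
    rw [Fintype.sum_bool]
    simp only [if_true, Bool.false_eq_true, if_false]
    rw [abs_of_neg h3]; ring
  · intro k l hkl
    rw [Function.onFun, Set.disjoint_left]
    intro y hy hy'
    cases k <;> cases l
    · exact hkl rfl
    · simp only [if_true, Bool.false_eq_true, if_false] at hy hy'
      exact absurd hy.2 (not_lt.2 hy'.2.le)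
    · simp only [if_true, Bool.false_eq_true, if_false] at hy hy'
      exact absurd hy.2 (not_lt.2 hy'.2.le)
    · exact hkl rfl
  · intro k
    cases k
    · simp only [Bool.false_eq_true, if_false]
      exact hK.measurableSet.inter (isOpen_lt hc continuous_const).measurableSet
    · simp only [if_true]
      exact hK.measurableSet.inter (isOpen_lt continuous_const hc).measurableSet
  · intro k
    cases k
    · simp only [Bool.false_eq_true, if_false]
      exact fun y hy => hy.1
    · simp only [if_true]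
      exact fun y hy => hy.1
  · intro k
    cases k
    · simp only [Bool.false_eq_true, if_false]; positivity
    · simp only [if_true]; positivity
  · intro k
    cases k
    · simp only [Bool.false_eq_true, if_false]
      refine h.vol1 hb he 2 ?_
      intro y hy x hx hyx
      refine ⟨hy, ?_⟩
      have := hyx 2
      rw [if_pos rfl, add_zero] at this
      rw [this]
      exact mul_neg_of_pos_of_neg (hx 2) h3
    · simp only [if_true]
      exact h.vol0 hb (fun y hy hyj => ⟨hy, hyj 2⟩)

theorem Five.vol_two (h : Five K q e B) (hK : IsCompact K) (hb : ∀ i, b i = q i.succ - q 0)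
    (he : ∀ i, b.repr (e - q 0) i = B i.succ) (h2 : B 2 < 0) (h3 : B 3 < 0) :
    ENNReal.ofReal (|std.det b| * (1 - B 2 - B 3) / 6) ≤ volume K := by
  have hb0 : 0 ≤ |std.det b| := abs_nonneg _
  have hc1 := continuous_coord b (q 0) 1
  have hc2 := continuous_coord b (q 0) 2
  have hcc : Continuous (fun y : E3 => B 3 * b.repr (y - q 0) 1 - B 2 * b.repr (y - q 0) 2) :=
    (hc1.const_mul _).sub (hc2.const_mul _)
  have key := vol_ge_of_pieces (K := K)
    (fun k : Fin 3 => (![{y | y ∈ K ∧ 0 < b.repr (y - q 0) 1 ∧ 0 < b.repr (y - q 0) 2},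
      {y | y ∈ K ∧ b.repr (y - q 0) 1 < 0 ∧
        0 < B 3 * b.repr (y - q 0) 1 - B 2 * b.repr (y - q 0) 2},
      {y | y ∈ K ∧ b.repr (y - q 0) 2 < 0 ∧
        B 3 * b.repr (y - q 0) 1 - B 2 * b.repr (y - q 0) 2 < 0}] : Fin 3 → Set E3) k) ?_ ?_ ?_
    (fun k : Fin 3 => (![|std.det b| / 6, |std.det b| * |B 2| / 6,
      |std.det b| * |B 3| / 6] : Fin 3 → ℝ) k) ?_ ?_
  · refine le_trans (le_of_eq ?_) key
    congr 1
    rw [Fin.sum_univ_three]
    show _ = |std.det b| / 6 + |std.det b| * |B 2| / 6 + |std.det b| * |B 3| / 6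
    rw [abs_of_neg h3, abs_of_neg h2]; ring
  · have d01 : Disjoint {y | y ∈ K ∧ 0 < b.repr (y - q 0) 1 ∧ 0 < b.repr (y - q 0) 2}
        {y | y ∈ K ∧ b.repr (y - q 0) 1 < 0 ∧
          0 < B 3 * b.repr (y - q 0) 1 - B 2 * b.repr (y - q 0) 2} := by
      rw [Set.disjoint_left]
      intro y hy hy'
      exact absurd hy.2.1 (not_lt.2 hy'.2.1.le)
    have d02 : Disjoint {y | y ∈ K ∧ 0 < b.repr (y - q 0) 1 ∧ 0 < b.repr (y - q 0) 2}
        {y | y ∈ K ∧ b.repr (y - q 0) 2 < 0 ∧
          B 3 * b.repr (y - q 0) 1 - B 2 * b.repr (y - q 0) 2 < 0} := by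
      rw [Set.disjoint_left]
      intro y hy hy'
      exact absurd hy.2.2 (not_lt.2 hy'.2.1.le)
    have d12 : Disjoint {y | y ∈ K ∧ b.repr (y - q 0) 1 < 0 ∧
          0 < B 3 * b.repr (y - q 0) 1 - B 2 * b.repr (y - q 0) 2}
        {y | y ∈ K ∧ b.repr (y - q 0) 2 < 0 ∧
          B 3 * b.repr (y - q 0) 1 - B 2 * b.repr (y - q 0) 2 < 0} := by
      rw [Set.disjoint_left]
      intro y hy hy'
      exact absurd hy.2.2 (not_lt.2 hy'.2.2.le)
    intro k l hkl
    fin_cases k <;> fin_cases l
    · exact absurd rfl hkl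
    · exact d01
    · exact d02
    · exact d01.symm
    · exact absurd rfl hkl
    · exact d12
    · exact d02.symm
    · exact d12.symm
    · exact absurd rfl hkl
  · intro k
    fin_cases k
    · exact hK.measurableSet.inter ((isOpen_lt continuous_const hc1).measurableSet.inter
        (isOpen_lt continuous_const hc2).measurableSet)
    · exact hK.measurableSet.inter ((isOpen_lt hc1 continuous_const).measurableSet.inter
        (isOpen_lt continuous_const hcc).measurableSet)
    · exact hK.measurableSet.inter ((isOpen_lt hc2 continuous_const).measurableSet.inter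
        (isOpen_lt hcc continuous_const).measurableSet)
  · intro k
    fin_cases k
    · exact fun y hy => hy.1
    · exact fun y hy => hy.1
    · exact fun y hy => hy.1
  · intro k
    fin_cases k
    · show 0 ≤ |std.det b| / 6; positivity
    · show 0 ≤ |std.det b| * |B 2| / 6; positivity
    · show 0 ≤ |std.det b| * |B 3| / 6; positivity
  · intro k
    fin_cases k
    · exact h.vol0 hb (fun y hy hyj => ⟨hy, hyj 1, hyj 2⟩)
    · refine h.vol1 hb he 1 ?_
      intro y hy x hx hyx
      have g1 := hyx 1
      have g2 := hyx 2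
      rw [if_pos rfl, add_zero] at g1
      rw [if_neg (by decide)] at g2
      have g1' : b.repr (y - q 0) 1 = x 1 * B 2 := g1
      have g2' : b.repr (y - q 0) 2 = x 1 * B 3 + x 2 := g2
      refine ⟨hy, ?_, ?_⟩
      · rw [g1']; exact mul_neg_of_pos_of_neg (hx 1) h2
      · rw [g1', g2']
        have := mul_neg_of_pos_of_neg (hx 2) h2
        linarith
    · refine h.vol1 hb he 2 ?_
      intro y hy x hx hyx
      have g1 := hyx 1
      have g2 := hyx 2
      rw [if_pos rfl, add_zero] at g2
      rw [if_neg (by decide)] at g1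
      have g1' : b.repr (y - q 0) 1 = x 2 * B 2 + x 1 := g1
      have g2' : b.repr (y - q 0) 2 = x 2 * B 3 := g2
      refine ⟨hy, ?_, ?_⟩
      · rw [g2']; exact mul_neg_of_pos_of_neg (hx 2) h3
      · rw [g1', g2']
        have := mul_neg_of_pos_of_neg (hx 1) h3
        linarith

end vol

end Pool.Agent.Helper47.CO
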