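import Pool.Agent.Helper47.CO.Width
import Pool.Agent.Helper47.CO.Equal

/-!
# Polytopes with at most five vertices: the lattices
-/

set_option autoImplicit false
namespace Pool.Agent.Helper47.CO
open MeasureTheory Filter Topology Metric
open scoped Pointwise ENNReal
open Pool.Agent.Helper84.Tet

/-- Widths from bounds at the generators. -/
theorem width_of {S : Set E3} {g : E3 →ₗ[ℝ] ℝ} {lo hi : ℝ} (h : ∀ x ∈ S, lo ≤ g x ∧ g x ≤ hi)
    {x y : E3} (hx : x ∈ convexHull ℝ S) (hy : y ∈ convexHull ℝ S) : g (x - y) ≤ hi - lo := by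
  have h1 := hull_le (g := g) (c := hi) (fun z hz => (h z hz).2) x hx
  have h2 := hull_le (g := -g) (c := -lo) (fun z hz => by
    rw [LinearMap.neg_apply]; linarith [(h z hz).1]) y hy
  rw [LinearMap.neg_apply] at h2
  rw [map_sub]; linarith

/-- The data of a body with five vertices. -/
structure Five (K : Set E3) (q : Fin 4 → E3) (e : E3) (B : Fin 4 → ℝ) : Prop where
  hull : K = convexHull ℝ (insert e (Set.range q))
  aff : AffineIndependent ℝ q
  bary : e = ∑ i, B i • q i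
  sum : ∑ i, B i = 1
  abs : ∀ i, |B i| ≤ 1

theorem Five.perm {K : Set E3} {q : Fin 4 → E3} {e : E3} {B : Fin 4 → ℝ} (h : Five K q e B)
    (π : Equiv.Perm (Fin 4)) : Five K (q ∘ π) e (B ∘ π) := by
  refine ⟨?_, ?_, ?_, ?_, fun i => h.abs _⟩
  · rw [EquivLike.range_comp]; exact h.hull
  · exact (affineIndependent_equiv π).2 h.aff
  · rw [h.bary]
    exact (Equiv.sum_comp π (fun i => B i • q i)).symm
  · rw [← h.sum]
    exact Equiv.sum_comp π B

theorem Five.sorted {K : Set E3} {q : Fin 4 → E3} {e : E3} {B : Fin 4 → ℝ} (h : Five K q e B) :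
    ∃ (q' : Fin 4 → E3) (B' : Fin 4 → ℝ), Five K q' e B' ∧ B' 1 ≤ B' 0 ∧ B' 2 ≤ B' 1 ∧
      B' 3 ≤ B' 2 := by
  have hm := Tuple.monotone_sort (fun i => -B i)
  set π := Tuple.sort (fun i => -B i) with hπ
  have h01 := hm (show (0 : Fin 4) ≤ 1 by decide)
  have h12 := hm (show (1 : Fin 4) ≤ 2 by decide)
  have h23 := hm (show (2 : Fin 4) ≤ 3 by decide)
  simp only [Function.comp_apply] at h01 h12 h23
  refine ⟨q ∘ π, B ∘ π, h.perm π, ?_, ?_, ?_⟩ <;> simp only [Function.comp_apply] <;> linarith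

/-- The basis of the tetrahedron. -/
theorem Five.exists_basis {K : Set E3} {q : Fin 4 → E3} {e : E3} {B : Fin 4 → ℝ}
    (h : Five K q e B) : ∃ b : Module.Basis (Fin 3) ℝ E3, (∀ i, b i = q i.succ - q 0) ∧
      (∀ i, b.repr (e - q 0) i = B i.succ) ∧ (∀ i j : Fin 3, b.repr (q i.succ - q 0) j =
        if i = j then 1 else 0) := by
  have hli := linearIndependent_of_affine h.aff
  let b : Module.Basis (Fin 3) ℝ E3 := basisOfLinearIndependentOfCardEqFinrank hli (by simp)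
  have hb : ∀ i, b i = q i.succ - q 0 := by intro i; simp [b]
  refine ⟨b, hb, ?_, ?_⟩
  · intro i
    have h1 : e - q 0 = ∑ j : Fin 3, B j.succ • b j := by
      have h2 := h.bary
      have h3 := h.sum
      rw [Fin.sum_univ_succ] at h2 h3
      have h4 : B 0 = 1 - ∑ j : Fin 3, B j.succ := by linarith
      rw [h2, h4]
      simp only [hb, smul_sub, Finset.sum_sub_distrib, ← Finset.sum_smul, sub_smul, one_smul]
      abel
    rw [h1]
    simp [Finsupp.single_apply]
  · intro i j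
    rw [← hb, b.repr_self, Finsupp.single_apply]

theorem Five.widths {K : Set E3} {q : Fin 4 → E3} {e : E3} {B : Fin 4 → ℝ}
    (h : Five K q e B) {b : Module.Basis (Fin 3) ℝ E3}
    (he : ∀ i, b.repr (e - q 0) i = B i.succ) (hq : ∀ i j : Fin 3, b.repr (q i.succ - q 0) j =
        if i = j then 1 else 0) {w e' lo hi : Fin 3 → ℝ} (h0 : 0 ≤ B 0)
    (hw : ∀ i, 1 ≤ w i ∧ 1 - B i.succ ≤ w i) (hwB : ∀ i : Fin 3, B i.succ ≤ 1)
    (hlo : ∀ i, lo i ≤ 0 ∧ lo i ≤ B 0 + B i.succ) (hhi : ∀ i, 1 ≤ hi i ∧ B 0 + B i.succ ≤ hi i)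
    (he' : ∀ i, e' i = hi i - lo i) : Widths b K 1 w e' := by
  have hB0 : B 0 ≤ 1 := (abs_le.1 (h.abs 0)).2
  have hsum : B 0 + (B 1 + B 2 + B 3) = 1 := by
    have := h.sum
    rw [Fin.sum_univ_four] at this
    linarith
  have smq : ∀ i : Fin 3, sm b (q i.succ - q 0) = 1 := by
    intro i
    rw [sm_apply, Finset.sum_congr rfl (fun j _ => hq i j)]
    simp
  have sme : sm b (e - q 0) = 1 - B 0 := by
    rw [sm_apply, Fin.sum_univ_three, he, he, he]
    have e1 : B (Fin.succ 0) = B 1 := rfl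
    have e2 : B (Fin.succ 1) = B 2 := rfl
    have e3 : B (Fin.succ 2) = B 3 := rfl
    rw [e1, e2, e3]; linarith
  -- from the generators to all of `K`
  have key : ∀ (g : E3 →ₗ[ℝ] ℝ) (l u : ℝ), l ≤ 0 → 0 ≤ u →
      (∀ i : Fin 3, l ≤ g (q i.succ - q 0) ∧ g (q i.succ - q 0) ≤ u) →
      l ≤ g (e - q 0) → g (e - q 0) ≤ u → ∀ x ∈ K, ∀ y ∈ K, g (x - y) ≤ u - l := by
    intro g l u hl hu hqs h1 h2 x hx y hy
    rw [h.hull] at hx hy
    have := width_of (g := g) (lo := l + g (q 0)) (hi := u + g (q 0)) (by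
      rintro z (rfl | ⟨i, rfl⟩)
      · rw [map_sub] at h1 h2
        constructor <;> linarith
      · refine Fin.cases ?_ (fun j => ?_) i
        · constructor <;> linarith
        · have h3 := hqs j
          rw [map_sub] at h3
          constructor <;> linarith [h3.1, h3.2]) hx hy
    linarith
  refine ⟨?_, ?_, ?_⟩
  · intro x hx y hy
    have := key (-sm b) (-1) 0 (by norm_num) le_rfl
      (fun i => by rw [LinearMap.neg_apply, smq]; constructor <;> norm_num)
      (by rw [LinearMap.neg_apply, sme]; linarith) (by rw [LinearMap.neg_apply, sme]; linarith)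
      x hx y hy
    rw [LinearMap.neg_apply] at this
    linarith
  · intro i x hx y hy
    have := key (-b.coord i) (-1) (w i - 1) (by norm_num) (by linarith [(hw i).1])
      (fun j => by
        rw [LinearMap.neg_apply, Module.Basis.coord_apply, hq]
        have := (hw i).1
        split_ifs <;> constructor <;> linarith)
      (by rw [LinearMap.neg_apply, Module.Basis.coord_apply, he]; linarith [hwB i])
      (by rw [LinearMap.neg_apply, Module.Basis.coord_apply, he]; linarith [(hw i).2])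
      x hx y hy
    rw [LinearMap.neg_apply, Module.Basis.coord_apply] at this
    linarith
  · intro i x hx y hy
    have h1 := hlo i
    have h2 := hhi i
    have := key (-sm b + b.coord i) (lo i - 1) (hi i - 1) (by linarith) (by linarith)
      (fun j => by
        rw [LinearMap.add_apply, LinearMap.neg_apply, Module.Basis.coord_apply, hq, smq]
        split_ifs <;> constructor <;> linarith)
      (by
        rw [LinearMap.add_apply, LinearMap.neg_apply, Module.Basis.coord_apply, he, sme]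
        linarith)
      (by
        rw [LinearMap.add_apply, LinearMap.neg_apply, Module.Basis.coord_apply, he, sme]
        linarith) x hx y hy
    rw [LinearMap.add_apply, LinearMap.neg_apply, Module.Basis.coord_apply] at this
    rw [he' i]
    linarith

/-- Two negative coordinates. -/
theorem Five.two {K : Set E3} {q : Fin 4 → E3} {e : E3} {B : Fin 4 → ℝ}
    (h : Five K q e B) {b : Module.Basis (Fin 3) ℝ E3} (hK : IsCompact K)
    (he : ∀ i, b.repr (e - q 0) i = B i.succ) (hq : ∀ i j : Fin 3, b.repr (q i.succ - q 0) j =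
        if i = j then 1 else 0) (h10 : B 1 ≤ B 0) (h2 : B 2 < 0) (h3 : B 3 < 0)
    (hvol : ENNReal.ofReal (|std.det b| * (1 - B 2 - B 3) / 6) ≤ volume K) :
    18 / 49 < deltaL K := by
  have a0 := (abs_le.1 (h.abs 0)).2
  have a1 := (abs_le.1 (h.abs 1)).2
  have hsum : B 0 + (B 1 + B 2 + B 3) = 1 := by
    have := h.sum
    rw [Fin.sum_univ_four] at this
    linarith
  have hw : Widths b K 1 ![1, 1 - B 2, 1 - B 3] ![1 - B 2 - B 3, 1, 1] := by
    refine h.widths he hq (lo := ![0, 0, 0]) (hi := ![1 - B 2 - B 3, 1, 1]) (by linarith)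
      ?_ ?_ ?_ ?_ ?_
    · intro i
      fin_cases i
      · show (1 : ℝ) ≤ 1 ∧ 1 - B 1 ≤ 1
        constructor <;> linarith
      · show (1 : ℝ) ≤ 1 - B 2 ∧ 1 - B 2 ≤ 1 - B 2
        constructor <;> linarith
      · show (1 : ℝ) ≤ 1 - B 3 ∧ 1 - B 3 ≤ 1 - B 3
        constructor <;> linarith
    · intro i
      fin_cases i
      · show B 1 ≤ 1; linarith
      · show B 2 ≤ 1; linarith
      · show B 3 ≤ 1; linarith
    · intro i
      fin_cases i
      · show (0 : ℝ) ≤ 0 ∧ 0 ≤ B 0 + B 1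
        constructor <;> linarith
      · show (0 : ℝ) ≤ 0 ∧ 0 ≤ B 0 + B 2
        constructor <;> linarith
      · show (0 : ℝ) ≤ 0 ∧ 0 ≤ B 0 + B 3
        constructor <;> linarith
    · intro i
      fin_cases i
      · show (1 : ℝ) ≤ 1 - B 2 - B 3 ∧ B 0 + B 1 ≤ 1 - B 2 - B 3
        constructor <;> linarith
      · show (1 : ℝ) ≤ 1 ∧ B 0 + B 2 ≤ 1
        constructor <;> linarith
      · show (1 : ℝ) ≤ 1 ∧ B 0 + B 3 ≤ 1
        constructor <;> linarith
    · intro i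
      fin_cases i
      · show 1 - B 2 - B 3 = 1 - B 2 - B 3 - 0; ring
      · show (1 : ℝ) = 1 - 0; ring
      · show (1 : ℝ) = 1 - 0; ring
  refine (hw.bound hK (h1 := 1 / 3) (h2 := 1 / 3) (h3 := 1 / 3) (c12 := 1 / 2 - B 2)
    (c13 := 1 / 2 - B 3) (c21 := 1 / 2) (c23 := 1 / 2) (c31 := 1 / 2) (c32 := 1 / 2)
    (D := 49 / 108 - 7 / 18 * (B 2 + B 3)) (V := 1 - B 2 - B 3)
    (B := 49 / 108 * (1 - B 2 - B 3)) (by norm_num) (by norm_num) (by norm_num) (by norm_num)
    (by linarith) (by linarith) (by norm_num) (by norm_num) (by norm_num) (by norm_num) ?_ ?_ ?_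
    ?_ ?_ ?_ (by ring) (by linarith) hvol rfl).2 (by linarith)
  · show (1 : ℝ) ≤ 1 / 2 + 1 / 2; norm_num
  · show 1 - B 2 ≤ 1 / 2 - B 2 + 1 / 2; linarith
  · show 1 - B 3 ≤ 1 / 2 - B 3 + 1 / 2; linarith
  · show 1 - B 2 - B 3 ≤ 1 / 2 - B 2 + (1 / 2 - B 3); linarith
  · show (1 : ℝ) ≤ 1 / 2 + 1 / 2; norm_num
  · show (1 : ℝ) ≤ 1 / 2 + 1 / 2; norm_num

/-- The condition on the excesses. -/
theorem delta_sum {t c0 c1 c2 : ℝ} (ht : 0 < t) (ht1 : t ≤ 1) (h2 : 0 ≤ c2)
    (h12 : c2 ≤ c1) (h01 : c1 ≤ c0) (h0 : c0 ≤ 1) (hs : c0 + c1 + c2 = 1 + t) :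
    max 0 (t - c0) + max 0 (t - c1) + max 0 (t - c2) ≤ t := by
  rcases max_cases 0 (t - c0) with ⟨e0, _⟩ | ⟨e0, _⟩ <;>
    rcases max_cases 0 (t - c1) with ⟨e1, _⟩ | ⟨e1, _⟩ <;>
    rcases max_cases 0 (t - c2) with ⟨e2, _⟩ | ⟨e2, _⟩ <;>
    rw [e0, e1, e2] <;> linarith

/-- One negative coordinate. -/
theorem Five.one {K : Set E3} {q : Fin 4 → E3} {e : E3} {B : Fin 4 → ℝ}
    (h : Five K q e B) {b : Module.Basis (Fin 3) ℝ E3} (hK : IsCompact K)
    (he : ∀ i, b.repr (e - q 0) i = B i.succ) (hq : ∀ i j : Fin 3, b.repr (q i.succ - q 0) j =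
        if i = j then 1 else 0) (h10 : B 1 ≤ B 0) (h21 : B 2 ≤ B 1) (h2 : 0 ≤ B 2) (h3 : B 3 < 0)
    (hvol : ENNReal.ofReal (|std.det b| * (1 - B 3) / 6) ≤ volume K) :
    18 / 49 < deltaL K := by
  have a0 := (abs_le.1 (h.abs 0)).2
  have a3 := (abs_le.1 (h.abs 3)).1
  have hsum : B 0 + (B 1 + B 2 + B 3) = 1 := by
    have := h.sum
    rw [Fin.sum_univ_four] at this
    linarith
  obtain ⟨t, ht⟩ : ∃ t, t = -B 3 := ⟨_, rfl⟩
  have hB3 : B 3 = -t := by linarith
  have ht0 : 0 < t := by linarith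
  have ht1 : t ≤ 1 := by linarith
  have hs : B 0 + B 1 + B 2 = 1 + t := by linarith
  have hds := delta_sum ht0 ht1 h2 h21 h10 a0 hs
  set w := max 0 (t - B 0) with hwdef
  set d1 := max 0 (t - B 1) with hd1
  set d2 := max 0 (t - B 2) with hd2
  have w0 : 0 ≤ w := le_max_left _ _
  have d10 : 0 ≤ d1 := le_max_left _ _
  have d20 : 0 ≤ d2 := le_max_left _ _
  have w1 : t - B 0 ≤ w := le_max_right _ _
  have d11 : t - B 1 ≤ d1 := le_max_right _ _
  have d21 : t - B 2 ≤ d2 := le_max_right _ _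
  have d12 : d1 ≤ d2 := max_le_max le_rfl (by linarith)
  have hwu : w ≤ max 0 ((2 * t - 1) / 3) := max_le_max le_rfl (by linarith)
  have hw : Widths b K 1 ![1, 1, 1 + t] ![1 + d2, 1 + d1, 1 + w] := by
    refine h.widths he hq (lo := ![0, 0, -w]) (hi := ![1 + d2, 1 + d1, 1]) (by linarith)
      ?_ ?_ ?_ ?_ ?_
    · intro i
      fin_cases i
      · show (1 : ℝ) ≤ 1 ∧ 1 - B 1 ≤ 1
        constructor <;> linarith
      · show (1 : ℝ) ≤ 1 ∧ 1 - B 2 ≤ 1
        constructor <;> linarith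
      · show (1 : ℝ) ≤ 1 + t ∧ 1 - B 3 ≤ 1 + t
        constructor <;> linarith
    · intro i
      fin_cases i
      · show B 1 ≤ 1; linarith
      · show B 2 ≤ 1; linarith
      · show B 3 ≤ 1; linarith
    · intro i
      fin_cases i
      · show (0 : ℝ) ≤ 0 ∧ 0 ≤ B 0 + B 1
        constructor <;> linarith
      · show (0 : ℝ) ≤ 0 ∧ 0 ≤ B 0 + B 2
        constructor <;> linarith
      · show -w ≤ 0 ∧ -w ≤ B 0 + B 3
        constructor <;> linarith
    · intro i
      fin_cases i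
      · show (1 : ℝ) ≤ 1 + d2 ∧ B 0 + B 1 ≤ 1 + d2
        constructor <;> linarith
      · show (1 : ℝ) ≤ 1 + d1 ∧ B 0 + B 2 ≤ 1 + d1
        constructor <;> linarith
      · show (1 : ℝ) ≤ 1 ∧ B 0 + B 3 ≤ 1
        constructor <;> linarith
    · intro i
      fin_cases i
      · show 1 + d2 = 1 + d2 - 0; ring
      · show 1 + d1 = 1 + d1 - 0; ring
      · show 1 + w = 1 - -w; ring
  obtain ⟨z, hz⟩ : ∃ z, z = (d2 - d1) / 2 := ⟨_, rfl⟩
  have z0 : 0 ≤ z := by linarith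
  have z1 : z ≤ t / 2 := by linarith
  have hvol' : ENNReal.ofReal (|std.det b| * (1 + t) / 6) ≤ volume K := by
    rw [ht]
    have e : 1 + -B 3 = 1 - B 3 := by ring
    rw [e]; exact hvol
  by_cases hcase : t ≤ 1 / 2 ∨ 1 / 4 < w
  · have hw3 : w ≤ 1 / 3 := hwu.trans (max_le (by norm_num) (by linarith))
    refine (hw.bound hK (h1 := 1 / 3) (h2 := 1 / 3) (h3 := 1 / 3) (c12 := 1 / 2 - w / 2)
      (c13 := (1 + t) / 2 + z) (c21 := 1 / 2 - w / 2) (c23 := (1 + t) / 2 - z)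
      (c31 := 1 / 2 + w / 2) (c32 := 1 / 2 + w / 2)
      (D := 49 / 108 + 7 / 18 * t + (t ^ 2 / 4 - w ^ 2 - z ^ 2) / 3) (V := 1 + t)
      (B := 49 / 108 * (1 + t)) (by norm_num) (by norm_num) (by norm_num) (by norm_num)
      (by linarith) (by linarith) (by linarith) (by linarith) (by linarith) (by linarith)
      ?_ ?_ ?_ ?_ ?_ ?_ (by ring) ?_ hvol' rfl).2 ?_
    · show (1 : ℝ) ≤ 1 / 2 - w / 2 + (1 / 2 + w / 2); linarith
    · show (1 : ℝ) ≤ 1 / 2 - w / 2 + (1 / 2 + w / 2); linarith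
    · show 1 + t ≤ (1 + t) / 2 + z + ((1 + t) / 2 - z); linarith
    · show 1 + d2 ≤ 1 / 2 - w / 2 + ((1 + t) / 2 + z); linarith
    · show 1 + d1 ≤ 1 / 2 - w / 2 + ((1 + t) / 2 - z); linarith
    · show 1 + w ≤ 1 / 2 + w / 2 + (1 / 2 + w / 2); linarith
    · have e1 := pow_le_pow_left₀ w0 hw3 2
      have e2 := pow_le_pow_left₀ z0 z1 2
      linarith
    · have e2 : 0 ≤ z ^ 2 := sq_nonneg z
      have e4 : 0 ≤ w ^ 2 := sq_nonneg w
      rcases hcase with hc | hc
      · have e3 := mul_le_mul_of_nonneg_left hc ht0.le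
        linarith
      · have e1 := pow_lt_pow_left₀ hc (by norm_num) two_ne_zero
        have e3 := mul_le_mul_of_nonneg_left ht1 ht0.le
        linarith
  · push Not at hcase
    obtain ⟨hc1, hc2⟩ := hcase
    have hw3 : w ≤ (2 * t - 1) / 3 := by
      refine hwu.trans (max_le (by linarith) le_rfl)
    refine (hw.bound hK (h1 := 3 / 8) (h2 := 3 / 8) (h3 := 1 / 4) (c12 := 1 / 2 - w / 2)
      (c13 := (1 + t) / 2 + z) (c21 := 1 / 2 - w / 2) (c23 := (1 + t) / 2 - z)
      (c31 := 1 / 2 + w / 2) (c32 := 1 / 2 + w / 2)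
      (D := 117 / 256 + 11 / 32 * t + t ^ 2 / 16 + w / 64 + t * w / 16 - 3 / 8 * w ^ 2
        - z ^ 2 / 4) (V := 1 + t)
      (B := 49 / 108 * (1 + t)) (by norm_num) (by norm_num) (by norm_num) (by norm_num)
      (by linarith) (by linarith) (by linarith) (by linarith) (by linarith) (by linarith)
      ?_ ?_ ?_ ?_ ?_ ?_ (by ring) ?_ hvol' rfl).2 ?_
    · show (1 : ℝ) ≤ 1 / 2 - w / 2 + (1 / 2 + w / 2); linarith
    · show (1 : ℝ) ≤ 1 / 2 - w / 2 + (1 / 2 + w / 2); linarith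
    · show 1 + t ≤ (1 + t) / 2 + z + ((1 + t) / 2 - z); linarith
    · show 1 + d2 ≤ 1 / 2 - w / 2 + ((1 + t) / 2 + z); linarith
    · show 1 + d1 ≤ 1 / 2 - w / 2 + ((1 + t) / 2 - z); linarith
    · show 1 + w ≤ 1 / 2 + w / 2 + (1 / 2 + w / 2); linarith
    · have e1 := pow_le_pow_left₀ w0 hc2 2
      have e2 := pow_le_pow_left₀ z0 z1 2
      have e3 : 0 ≤ t * w := mul_nonneg ht0.le w0
      linarith
    · have e1 : 0 ≤ z ^ 2 := sq_nonneg z
      have e2 := mul_le_mul_of_nonneg_right ht1 w0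
      have e3 : 0 ≤ (1 - t) * (t - 1 / 2) := mul_nonneg (by linarith) (by linarith)
      have e4 : 0 ≤ (w - 5 / 48) ^ 2 := sq_nonneg _
      linarith

end Pool.Agent.Helper47.CO
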