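import Pool.Agent.Helper47.CO.Five
import Pool.Agent.Helper47.CO.Tetra

/-!
# Polytopes with at most five vertices: the main theorem
-/

set_option autoImplicit false
namespace Pool.Agent.Helper47.CO
open MeasureTheory Filter Topology Metric
open scoped Pointwise ENNReal
open Pool.Agent.Helper84.Tet

/-- The convex hull of five points (not necessarily different, nor vertices of the hull). -/
def IsHullOfFive (K : Set E3) : Prop :=
  ∃ v : Fin 5 → E3, K = convexHull ℝ (Set.range v)

theorem span_of_hull {v : Fin 5 → E3} (hne : (interior (convexHull ℝ (Set.range v))).Nonempty) :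
    ∃ ψ : Fin 3 → Fin 5, std.det (fun i => v (ψ i) - v 0) ≠ 0 := by
  set S : Set E3 := Set.range (fun i => v i - v 0) with hS
  have hspan : Submodule.span ℝ S = ⊤ := by
    rw [interior_convexHull_nonempty_iff_affineSpan_eq_top] at hne
    have h1 := vectorSpan_range_eq_span_range_vsub_right ℝ v 0
    have h2 : vectorSpan ℝ (Set.range v) = ⊤ := by
      rw [← direction_affineSpan, hne, AffineSubspace.direction_top]
    rw [h2] at h1
    exact h1.symm
  obtain ⟨T, hTS, hTspan, hli⟩ := exists_linearIndependent ℝ S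
  have htop : ⊤ ≤ Submodule.span ℝ (Set.range (Subtype.val : T → E3)) := by
    rw [Subtype.range_coe, hTspan, hspan]
  set B := Module.Basis.mk hli htop with hBdef
  have hB : ∀ i : T, B i = (i : E3) := by
    intro i; simp [hBdef]
  have : Fintype T := FiniteDimensional.fintypeBasisIndex B
  have hcard : Fintype.card T = 3 := by
    rw [← Module.finrank_eq_card_basis B]; simp
  let e : T ≃ Fin 3 := Fintype.equivFinOfCardEq hcard
  set B' := B.reindex e with hB'
  have hmem : ∀ i, ∃ j, v j - v 0 = B' i := by
    intro i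
    have h1 : B' i = ((e.symm i : T) : E3) := by rw [hB', Module.Basis.reindex_apply, hB]
    obtain ⟨x, hx⟩ := hTS (e.symm i).2
    exact ⟨x, by rw [h1]; exact hx⟩
  choose ψ hψ using hmem
  refine ⟨ψ, ?_⟩
  have : (fun i => v (ψ i) - v 0) = B' := by ext1 i; exact hψ i
  rw [this]
  exact (std.isUnit_det B').ne_zero

theorem det_sub (b : Module.Basis (Fin 3) ℝ E3) (x : E3) :
    b.det (fun j => b j - x) = 1 - ∑ j, b.repr x j := by
  rw [Module.Basis.det_apply, Matrix.det_fin_three, Fin.sum_univ_three]
  simp [Module.Basis.toMatrix_apply]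
  ring

theorem exists_five {v : Fin 5 → E3} (hne : (interior (convexHull ℝ (Set.range v))).Nonempty) :
    ∃ (q : Fin 4 → E3) (e : E3) (B : Fin 4 → ℝ), Five (convexHull ℝ (Set.range v)) q e B := by
  obtain ⟨ψ, hψ⟩ := span_of_hull hne
  obtain ⟨φ, hφ⟩ := Finite.exists_max
    (fun φ : Fin 4 → Fin 5 => |std.det (fun i : Fin 3 => v (φ i.succ) - v (φ 0))|)
  have hpos : std.det (fun i : Fin 3 => v (φ i.succ) - v (φ 0)) ≠ 0 := by
    intro h
    have := hφ (Fin.cons 0 ψ)
    simp only [Fin.cons_succ, Fin.cons_zero] at this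
    rw [h, abs_zero] at this
    exact hψ (abs_nonpos_iff.1 this)
  have hli := (std.is_basis_iff_det (v := fun i : Fin 3 => v (φ i.succ) - v (φ 0))).2
    (isUnit_iff_ne_zero.2 hpos)
  obtain ⟨b, hb⟩ : ∃ b : Module.Basis (Fin 3) ℝ E3, ∀ i, b i = v (φ i.succ) - v (φ 0) :=
    ⟨Module.Basis.mk hli.1 hli.2.ge, fun i => by simp⟩
  have hbf : (fun i : Fin 3 => v (φ i.succ) - v (φ 0)) = b := by ext1 i; exact (hb i).symm
  have hb0 : 0 < |std.det b| := abs_pos.2 (std.isUnit_det b).ne_zero
  have haff : AffineIndependent ℝ (v ∘ φ) := by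
    have := affineIndependent_cons (p := v (φ 0)) (q := fun i : Fin 3 => v (φ i.succ)) hli.1
    have e : (Fin.cons (v (φ 0)) (fun i : Fin 3 => v (φ i.succ)) : Fin 4 → E3) = v ∘ φ := by
      ext1 i
      refine Fin.cases ?_ (fun j => ?_) i
      · rfl
      · rfl
    rw [e] at this
    exact this
  have hinj : Function.Injective φ := haff.injective.of_comp
  obtain ⟨k, hk⟩ : ∃ k, ∀ i, φ i ≠ k := by
    by_contra hcon
    push Not at hcon
    have := Fintype.card_le_of_surjective φ hcon
    simp at this
  have hsurj : Function.Surjective (Fin.cons k φ : Fin 5 → Fin 5) := by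
    apply Finite.injective_iff_surjective.1
    rw [Fin.cons_injective_iff]
    refine ⟨?_, hinj⟩
    rintro ⟨i, hi⟩
    exact hk i hi
  have hrange : Set.range v = insert (v k) (Set.range (v ∘ φ)) := by
    ext y
    constructor
    · rintro ⟨j, rfl⟩
      obtain ⟨i, rfl⟩ := hsurj j
      refine Fin.cases ?_ (fun l => ?_) i
      · exact Or.inl rfl
      · exact Or.inr ⟨l, rfl⟩
    · rintro (rfl | ⟨i, rfl⟩)
      · exact ⟨k, rfl⟩
      · exact ⟨φ i, rfl⟩
  obtain ⟨x, hx⟩ : ∃ x, x = v k - v (φ 0) := ⟨_, rfl⟩
  refine ⟨v ∘ φ, v k, Fin.cons (1 - ∑ i, b.repr x i) (fun i => b.repr x i), ?_, haff, ?_, ?_, ?_⟩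
  · rw [hrange]
  · rw [Fin.sum_univ_succ]
    simp only [Fin.cons_zero, Fin.cons_succ, Function.comp_apply]
    have h1 : ∑ i, b.repr x i • b i = x := b.sum_repr x
    simp only [hb, smul_sub, Finset.sum_sub_distrib, ← Finset.sum_smul] at h1
    have h2 : ∑ i : Fin 3, b.repr x i • v (φ i.succ) = x + (∑ i, b.repr x i) • v (φ 0) :=
      sub_eq_iff_eq_add.1 h1
    rw [h2, sub_smul, one_smul, hx]
    abel
  · rw [Fin.sum_univ_succ]
    simp only [Fin.cons_zero, Fin.cons_succ]
    ring
  · intro i
    refine Fin.cases ?_ (fun j => ?_) i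
    · rw [Fin.cons_zero]
      have h1 := hφ (Function.update φ 0 k)
      have e : (fun i : Fin 3 => v (Function.update φ 0 k i.succ) - v (Function.update φ 0 k 0)) =
          fun j => b j - x := by
        ext1 i
        rw [Function.update_self, Function.update_of_ne (Fin.succ_ne_zero i), hb, hx]
        abel
      rw [e, hbf, AlternatingMap.eq_smul_basis_det b std.det, AlternatingMap.smul_apply,
        det_sub, smul_eq_mul, abs_mul, AlternatingMap.smul_apply, smul_eq_mul, b.det_self,
        mul_one] at h1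
      by_contra hcon
      push Not at hcon
      have := mul_lt_mul_of_pos_left hcon hb0
      linarith
    · rw [Fin.cons_succ]
      have h1 := hφ (Function.update φ j.succ k)
      have e : (fun i : Fin 3 => v (Function.update φ j.succ k i.succ) -
          v (Function.update φ j.succ k 0)) = Function.update b j x := by
        ext1 i
        rw [Function.update_of_ne (Fin.succ_ne_zero j).symm]
        by_cases hij : i = j
        · rw [hij, Function.update_self, Function.update_self, hx]
        · rw [Function.update_of_ne hij, Function.update_of_ne (by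
            intro h; exact hij (Fin.succ_injective _ h)), hb]
      rw [e, hbf, std_det_update, abs_mul] at h1
      by_contra hcon
      push Not at hcon
      have := mul_lt_mul_of_pos_left hcon hb0
      linarith

theorem Five.tetrahedron {K : Set E3} {q : Fin 4 → E3} {e : E3} {B : Fin 4 → ℝ}
    (h : Five K q e B) (hB : ∀ i, 0 ≤ B i) : IsTetrahedron K := by
  refine ⟨q, h.aff, ?_⟩
  rw [h.hull]
  apply Set.Subset.antisymm
  · refine convexHull_min ?_ (convex_convexHull ℝ _)
    rintro y (rfl | hy)
    · rw [h.bary]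
      exact (convex_convexHull ℝ _).sum_mem (fun i _ => hB i) h.sum
        (fun i _ => subset_convexHull ℝ _ ⟨i, rfl⟩)
    · exact subset_convexHull ℝ _ hy
  · exact convexHull_mono (Set.subset_insert _ _)

/-- The main theorem for the convex hulls of five points. -/
theorem main_five {K : Set E3} (hK : IsConvexBody K) (h : IsHullOfFive K) :
    18 / 49 ≤ deltaL K ∧ (deltaL K = 18 / 49 ↔ IsTetrahedron K) := by
  obtain ⟨v, hv⟩ := h
  obtain ⟨q₀, e, B₀, h₀⟩ := exists_five (v := v) (by rw [← hv]; exact hK.interior_nonempty)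
  rw [← hv] at h₀
  obtain ⟨q, B, h5, h10, h21, h32⟩ := h₀.sorted
  obtain ⟨b, hb, he, hq⟩ := h5.exists_basis
  have strict : 18 / 49 < deltaL K →
      18 / 49 ≤ deltaL K ∧ (deltaL K = 18 / 49 ↔ IsTetrahedron K) := by
    intro hlt
    refine ⟨hlt.le, fun h => absurd h hlt.ne', fun h => ?_⟩
    exact absurd hlt (not_lt.2 (deltaL_le_of_tetrahedron h))
  by_cases h3 : 0 ≤ B 3
  · have ht : IsTetrahedron K := by
      refine h5.tetrahedron ?_
      intro i
      fin_cases i
      · show 0 ≤ B 0; linarith
      · show 0 ≤ B 1; linarith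
      · show 0 ≤ B 2; linarith
      · exact h3
    exact main_cone hK ht.cone
  · push Not at h3
    by_cases h2 : 0 ≤ B 2
    · exact strict (h5.one hK.isCompact he hq h10 h21 h2 h3 (h5.vol_one hK.isCompact hb he h3))
    · push Not at h2
      exact strict (h5.two hK.isCompact he hq h10 h2 h3 (h5.vol_two hK.isCompact hb he h2 h3))

end Pool.Agent.Helper47.CO
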