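import Pool.Agent.Helper47.CO.Lat
import Pool.Agent.Helper47.CO.All

/-!
# Lattice packings of truncated cones
-/

set_option autoImplicit false
namespace Pool.Agent.Helper47.CO
open MeasureTheory Filter Topology Metric
open scoped Pointwise ENNReal
open Pool.Agent.Helper84.Tet

/-- Linear inequalities are strict in the interior. -/
theorem strict_interior {K : Set E3} {g : E3 →ₗ[ℝ] ℝ} {c : ℝ} {v : E3} (hv : 0 < g v)
    (h : ∀ x ∈ K, g x ≤ c) {x : E3} (hx : x ∈ interior K) : g x < c := by
  have hcont : Continuous (fun t : ℝ => x + t • v) := by fun_prop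
  have hmem : (fun t : ℝ => x + t • v) ⁻¹' interior K ∈ 𝓝 (0 : ℝ) := by
    apply (isOpen_interior.preimage hcont).mem_nhds
    simpa using hx
  obtain ⟨ε, hε, hball⟩ := Metric.mem_nhds_iff.1 hmem
  have h1 : (ε / 2) ∈ Metric.ball (0 : ℝ) ε := by
    rw [Metric.mem_ball, Real.dist_eq, sub_zero, abs_of_pos (by positivity)]
    linarith
  have h2 := h _ (interior_subset (hball h1))
  rw [map_add, map_smul, smul_eq_mul] at h2
  have : 0 < ε / 2 * g v := by positivity
  linarith

section
variable (b : Module.Basis (Fin 3) ℝ E3)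

/-- The sum of the coordinates. -/
noncomputable def sm : E3 →ₗ[ℝ] ℝ := ∑ i, b.coord i

theorem sm_apply (x : E3) : sm b x = ∑ i, b.repr x i := by
  simp [sm]

theorem sm_self (i : Fin 3) : sm b (b i) = 1 := by
  rw [sm_apply]
  simp [Finsupp.single_apply]

/-- The data of a truncated cone: it lies in the region given by `u` and the numbers `a i`. -/
structure InRegion (p : E3) (u : ℝ) (a : Fin 3 → ℝ) (K : Set E3) : Prop where
  s1 : ∀ x ∈ K, sm b (x - p) ≤ 1
  s0 : ∀ x ∈ K, u ≤ sm b (x - p)
  up : ∀ x ∈ K, ∀ i, b.repr (x - p) i ≤ sm b (x - p)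
  lo : ∀ x ∈ K, ∀ i, -(a i * sm b (x - p)) ≤ b.repr (x - p) i

variable {b}

theorem InRegion.strict_s1 {p : E3} {u : ℝ} {a : Fin 3 → ℝ} {K : Set E3}
    (h : InRegion b p u a K) {x : E3} (hx : x ∈ interior K) : sm b (x - p) < 1 := by
  have := strict_interior (g := sm b) (c := 1 + sm b p) (v := b 0) (by rw [sm_self]; norm_num)
    (fun y hy => by have := h.s1 y hy; rw [map_sub] at this; linarith) hx
  rw [map_sub]; linarith

theorem InRegion.strict_s0 {p : E3} {u : ℝ} {a : Fin 3 → ℝ} {K : Set E3}
    (h : InRegion b p u a K) {x : E3} (hx : x ∈ interior K) : u < sm b (x - p) := by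
  have := strict_interior (g := -sm b) (c := -u - sm b p) (v := -b 0)
    (by rw [LinearMap.neg_apply, map_neg, sm_self]; norm_num)
    (fun y hy => by
      have := h.s0 y hy
      rw [map_sub] at this
      rw [LinearMap.neg_apply]; linarith) hx
  rw [LinearMap.neg_apply] at this
  rw [map_sub]; linarith

theorem InRegion.strict_up {p : E3} {u : ℝ} {a : Fin 3 → ℝ} {K : Set E3}
    (h : InRegion b p u a K) {x : E3} (hx : x ∈ interior K) (i : Fin 3) :
    b.repr (x - p) i < sm b (x - p) := by
  obtain ⟨j, hj⟩ : ∃ j : Fin 3, j ≠ i := exists_ne i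
  have := strict_interior (g := b.coord i - sm b) (c := (b.coord i - sm b) p) (v := -b j)
    (by
      rw [LinearMap.sub_apply, map_neg, map_neg, sm_self]
      simp [hj])
    (fun y hy => by
      have := h.up y hy i
      have h2 : (b.coord i - sm b) (y - p) ≤ 0 := by
        rw [LinearMap.sub_apply, Module.Basis.coord_apply]; linarith
      rw [map_sub] at h2; linarith) hx
  have h2 : (b.coord i - sm b) (x - p) < 0 := by rw [map_sub]; linarith
  rw [LinearMap.sub_apply, Module.Basis.coord_apply] at h2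
  linarith

theorem InRegion.strict_lo {p : E3} {u : ℝ} {a : Fin 3 → ℝ} {K : Set E3}
    (h : InRegion b p u a K) (ha : ∀ i, 0 ≤ a i) {x : E3} (hx : x ∈ interior K) (i : Fin 3) :
    -(a i * sm b (x - p)) < b.repr (x - p) i := by
  have := strict_interior (g := -(b.coord i) - a i • sm b) (c := (-(b.coord i) - a i • sm b) p)
    (v := -b i)
    (by
      rw [LinearMap.sub_apply, LinearMap.smul_apply, LinearMap.neg_apply, map_neg, map_neg,
        sm_self]
      have := ha i
      simp
      linarith)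
    (fun y hy => by
      have := h.lo y hy i
      have h2 : (-(b.coord i) - a i • sm b) (y - p) ≤ 0 := by
        rw [LinearMap.sub_apply, LinearMap.smul_apply, LinearMap.neg_apply,
          Module.Basis.coord_apply, smul_eq_mul]
        linarith
      rw [map_sub] at h2; linarith) hx
  have h2 : (-(b.coord i) - a i • sm b) (x - p) < 0 := by rw [map_sub]; linarith
  rw [LinearMap.sub_apply, LinearMap.smul_apply, LinearMap.neg_apply,
    Module.Basis.coord_apply, smul_eq_mul] at h2
  linarith

/-- Excluded vectors are not differences of interior points. -/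
theorem InRegion.not_diff {p : E3} {u : ℝ} {a : Fin 3 → ℝ} {K : Set E3}
    (h : InRegion b p u a K) (ha : ∀ i, 0 ≤ a i) {w : E3}
    (hexc : Exc (1 - u) a (fun j => b.repr w j)) {x y : E3} (hx : x ∈ interior K)
    (hy : y ∈ interior K) : x - y ≠ w := by
  intro hxy
  have hdec : w = (x - p) - (y - p) := by rw [← hxy]; abel
  have hs : sm b w = sm b (x - p) - sm b (y - p) := by rw [hdec, map_sub]
  have hc : ∀ i, b.repr w i = b.repr (x - p) i - b.repr (y - p) i := by
    intro i; rw [hdec, map_sub]; rfl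
  unfold Exc at hexc
  rw [← sm_apply] at hexc
  rcases hexc with h1 | ⟨i, h1 | h1⟩
  · have h2 := h.strict_s0 hx
    have h3 := h.strict_s1 hy
    linarith
  · have h2 := h.strict_up hx i
    have h3 := h.strict_lo ha hy i
    have h4 := h.strict_s1 hy
    have h5 := mul_nonneg (ha i) (sub_nonneg.2 h4.le)
    beta_reduce at h1
    rw [hc i] at h1
    nlinarith
  · have h2 := h.strict_lo ha hx i
    have h3 := h.strict_up hy i
    have h4 := h.strict_s1 hy
    have h5 := mul_nonneg (ha i) (sub_nonneg.2 h4.le)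
    beta_reduce at h1
    rw [hc i] at h1
    have h6 : sm b (x - p) = sm b (y - p) + sm b w := by linarith
    rw [h6] at h2
    nlinarith

/-- The lattice generated by the rows of `M`. -/
theorem exists_lattice_basis {M : Matrix (Fin 3) (Fin 3) ℝ} (hM : M.det ≠ 0) :
    ∃ W : Module.Basis (Fin 3) ℝ E3, (∀ i, W i = ∑ j, M i j • b j) ∧
      std.det W = std.det b * M.det := by
  set w : Fin 3 → E3 := fun i => ∑ j, M i j • b j with hw
  have hdet : b.det w = M.det := by
    rw [Module.Basis.det_apply, ← Matrix.det_transpose M]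
    congr 1
    ext i j
    rw [Module.Basis.toMatrix_apply, Matrix.transpose_apply, hw]
    simp [Finsupp.single_apply]
  have hli := (b.is_basis_iff_det (v := w)).2 (by rw [hdet]; exact isUnit_iff_ne_zero.2 hM)
  refine ⟨Module.Basis.mk hli.1 hli.2.ge, ?_, ?_⟩
  · intro i; simp [hw]
  · rw [Module.Basis.coe_mk, AlternatingMap.eq_smul_basis_det b std.det,
      AlternatingMap.smul_apply, hdet, smul_eq_mul]
    congr 1
    have := AlternatingMap.eq_smul_basis_det b std.det
    simp [Module.Basis.det_self]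

/-- The density bound for a body in the region. -/
theorem density_bound {K : Set E3} (hK : IsCompact K) {p : E3} {u : ℝ} (hu : 0 ≤ u)
    (hu1 : u < 1) {a : Fin 3 → ℝ} (ha : ∀ i, 0 ≤ a i) (ha1 : ∀ i, a i ≤ 1)
    (h : InRegion b p u a K)
    (hvol : ENNReal.ofReal (|std.det b| * (1 + ∑ i, a i) * (1 - u ^ 3) / 6) ≤ volume K) :
    18 / 49 ≤ deltaL K ∧
      (0 < u ∨ (0 < ∑ i, a i ∧ ∑ i, a i < 3) → 18 / 49 < deltaL K) := by
  obtain ⟨M, D, hadm, hdet, hD, hle, hlt⟩ := good_all hu hu1 ha ha1
  have hM : M.det ≠ 0 := by rw [hdet]; linarith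
  obtain ⟨W, hW, hWdet⟩ := exists_lattice_basis (b := b) hM
  have hb0 : 0 < |std.det b| := abs_pos.2 (std.isUnit_det b).ne_zero
  have hWabs : |std.det W| = |std.det b| * D := by
    rw [hWdet, hdet, abs_mul, abs_neg, abs_of_pos hD]
  have hσ : 0 ≤ ∑ i, a i := Finset.sum_nonneg (fun i _ => ha i)
  -- packing
  have hpack : ∀ n : Fin 3 → ℤ, n ≠ 0 → ∀ x ∈ interior K, ∀ y ∈ interior K,
      x - y ≠ ∑ i, (n i : ℝ) • W i := by
    have hcoord : ∀ n : Fin 3 → ℤ, ∀ j, b.repr (∑ i, (n i : ℝ) • W i) j =
        ∑ i, (n i : ℝ) * M i j := by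
      intro n j
      simp only [map_sum, map_smul, Finsupp.coe_finsetSum, Finset.sum_apply, Finsupp.coe_smul,
        Pi.smul_apply, smul_eq_mul]
      refine Finset.sum_congr rfl (fun i _ => ?_)
      rw [hW i]
      simp [Finsupp.single_apply]
    have hs : ∀ n : Fin 3 → ℤ, sm b (∑ i, (n i : ℝ) • W i) = ∑ j, ∑ i, (n i : ℝ) * M i j := by
      intro n
      rw [sm_apply]
      exact Finset.sum_congr rfl (fun j _ => hcoord n j)
    have main : ∀ n : Fin 3 → ℤ, n ≠ 0 → sm b (∑ i, (n i : ℝ) • W i) ≤ 0 →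
        ∀ x ∈ interior K, ∀ y ∈ interior K, x - y ≠ ∑ i, (n i : ℝ) • W i := by
      intro n hn hsn x hx y hy
      refine h.not_diff ha ?_ hx hy
      have := hadm n hn (by rw [← hs]; exact hsn)
      have e : (fun j => b.repr (∑ i, (n i : ℝ) • W i) j) = fun j => ∑ i, (n i : ℝ) * M i j := by
        ext j; exact hcoord n j
      rw [e]; exact this
    intro n hn x hx y hy
    rcases le_total (sm b (∑ i, (n i : ℝ) • W i)) 0 with h1 | h1
    · exact main n hn h1 x hx y hy
    · intro hxy
      have hneg : ∑ i, ((-n) i : ℝ) • W i = -∑ i, (n i : ℝ) • W i := by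
        rw [← Finset.sum_neg_distrib]
        refine Finset.sum_congr rfl (fun i _ => ?_)
        simp
      refine main (-n) (by simpa using hn) ?_ y hy x hx ?_
      · have e : (fun i => (((-n) i : ℤ) : ℝ) • W i) = fun i => ((-n) i : ℝ) • W i := rfl
        rw [hneg, map_neg]; linarith
      · rw [hneg, ← hxy]; abel
  have hge := deltaL_ge_of hK W hpack
  rw [hWabs] at hge
  have hbd : 0 < |std.det b| * D := mul_pos hb0 hD
  have h1 : ENNReal.ofReal (|std.det b| * (1 + ∑ i, a i) * (1 - u ^ 3) / 6 / (|std.det b| * D)) ≤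
      deltaL K := by
    rw [ENNReal.ofReal_div_of_pos hbd]
    exact (ENNReal.div_le_div hvol le_rfl).trans hge
  have h18 : (18 / 49 : ℝ≥0∞) = ENNReal.ofReal (18 / 49) := by
    rw [ENNReal.ofReal_div_of_pos (by norm_num)]
    simp
  constructor
  · rw [h18]
    refine le_trans (ENNReal.ofReal_le_ofReal ?_) h1
    rw [le_div_iff₀ hbd]
    have := mul_le_mul_of_nonneg_left hle hb0.le
    linarith
  · intro hh
    rw [h18]
    refine lt_of_lt_of_le ((ENNReal.ofReal_lt_ofReal_iff_of_nonneg (by norm_num)).2 ?_) h1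
    rw [lt_div_iff₀ hbd]
    have := mul_lt_mul_of_pos_left (hlt hh) hb0
    linarith

end

end Pool.Agent.Helper47.CO
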