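import Pool.Agent.Helper84.Tet.PackDefs
import Pool.Agent.Helper69.MD.Dens

/-!
# Lattices with a given basis; a lower bound for the lattice packing density
-/

set_option autoImplicit false
namespace Pool.Agent.Helper47.CO
open MeasureTheory Filter Topology Metric
open scoped Pointwise ENNReal
open Pool.Agent.Helper84.Tet

/-- The standard basis. -/
noncomputable abbrev std : Module.Basis (Fin 3) ℝ E3 := (EuclideanSpace.basisFun (Fin 3) ℝ).toBasis

/-- The lattice generated by a basis. -/
def latOf (b : Module.Basis (Fin 3) ℝ E3) : Submodule ℤ E3 := Submodule.span ℤ (Set.range b)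

noncomputable instance (b : Module.Basis (Fin 3) ℝ E3) : DiscreteTopology (latOf b) := by
  unfold latOf; infer_instance

noncomputable instance (b : Module.Basis (Fin 3) ℝ E3) : IsZLattice ℝ (latOf b) := by
  unfold latOf; infer_instance

theorem vol_std : volume (ZSpan.fundamentalDomain std) = 1 := by
  rw [measure_congr (ZSpan.fundamentalDomain_ae_parallelepiped _ volume)]
  have := (EuclideanSpace.basisFun (Fin 3) ℝ).volume_parallelepiped
  simpa using this

theorem covolume_latOf (b : Module.Basis (Fin 3) ℝ E3) :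
    ZLattice.covolume (latOf b) = |std.det b| := by
  have h1 : ZLattice.covolume (latOf b) = volume.real (ZSpan.fundamentalDomain b) :=
    ZLattice.covolume_eq_measure_fundamentalDomain (latOf b) volume
      (ZSpan.isAddFundamentalDomain b volume)
  rw [h1, ZSpan.measureReal_fundamentalDomain b volume std]
  have h2 : volume.real (ZSpan.fundamentalDomain std) = 1 := by
    rw [Measure.real, vol_std]; rfl
  rw [h2, mul_one]

theorem density_eq' (K : Set E3) (hK : IsCompact K) (Λ : Submodule ℤ E3) [DiscreteTopology Λ]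
    [IsZLattice ℝ Λ] :
    density K (Λ : Set E3) = volume K / ENNReal.ofReal (ZLattice.covolume Λ) :=
  Pool.Agent.Helper69.MD.density_eq hK.isBounded Λ

theorem le_deltaL {K : Set E3} (Λ : Submodule ℤ E3) [DiscreteTopology Λ]
    [IsZLattice ℝ Λ] (hp : IsPacking K (Λ : Set E3)) : density K (Λ : Set E3) ≤ deltaL K := by
  unfold deltaL
  exact le_iSup_of_le Λ (le_iSup_of_le ‹_› (le_iSup_of_le ‹_› (le_iSup_of_le hp le_rfl)))

theorem mem_latOf {b : Module.Basis (Fin 3) ℝ E3} {w : E3} (hw : w ∈ latOf b) :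
    ∃ n : Fin 3 → ℤ, w = ∑ i, (n i : ℝ) • b i := by
  unfold latOf at hw
  rw [Submodule.mem_span_range_iff_exists_fun] at hw
  obtain ⟨c, hc⟩ := hw
  refine ⟨c, ?_⟩
  rw [← hc]
  refine Finset.sum_congr rfl (fun i _ => ?_)
  rw [Int.cast_smul_eq_zsmul]

theorem deltaL_ge_of {K : Set E3} (hK : IsCompact K) (b : Module.Basis (Fin 3) ℝ E3)
    (hpack : ∀ n : Fin 3 → ℤ, n ≠ 0 → ∀ x ∈ interior K, ∀ y ∈ interior K,
      x - y ≠ ∑ i, (n i : ℝ) • b i) :
    volume K / ENNReal.ofReal |std.det b| ≤ deltaL K := by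
  have hp : IsPacking K (latOf b : Set E3) := by
    intro u hu v hv huv
    rw [interior_vadd, interior_vadd, Set.disjoint_left]
    rintro z ⟨x, hx, hxz⟩ ⟨y, hy, hyz⟩
    have hmem : v - u ∈ latOf b := (latOf b).sub_mem hv hu
    obtain ⟨n, hn⟩ := mem_latOf hmem
    have hn0 : n ≠ 0 := by
      rintro rfl
      apply huv
      have : v - u = 0 := by rw [hn]; simp
      exact (sub_eq_zero.1 this).symm
    refine hpack n hn0 x hx y hy ?_
    rw [← hn]
    have h1 : u + x = z := hxz
    have h2 : v + y = z := hyz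
    have h3 : u + x = v + y := h1.trans h2.symm
    have : x - y = v - u := by
      rw [sub_eq_sub_iff_add_eq_add, add_comm x u, h3]
    exact this
  have h := le_deltaL (latOf b) hp
  rwa [density_eq' K hK, covolume_latOf] at h

/-! ## Affine invariance -/

theorem covolume_comap_lin (Λ : Submodule ℤ E3) [DiscreteTopology Λ] [IsZLattice ℝ Λ]
    (L : E3 ≃L[ℝ] E3) :
    ZLattice.covolume (ZLattice.comap ℝ Λ L.toLinearMap) * |LinearMap.det (L : E3 →ₗ[ℝ] E3)| =
      ZLattice.covolume Λ := by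
  have hdet : LinearMap.det (L : E3 →ₗ[ℝ] E3) ≠ 0 := (LinearEquiv.isUnit_det' L.toLinearEquiv).ne_zero
  set d : ℝ := |LinearMap.det (L : E3 →ₗ[ℝ] E3)| with hd
  have hd0 : 0 < d := abs_pos.2 hdet
  set ν : Measure E3 := ENNReal.ofReal d • volume with hν
  have hc0 : ENNReal.ofReal d ≠ 0 := by simpa using hd0
  have hct : ENNReal.ofReal d ≠ ⊤ := ENNReal.ofReal_ne_top
  have : Measure.IsAddHaarMeasure ν := Measure.IsAddHaarMeasure.smul volume hc0 hct
  have hmp : MeasurePreserving L ν volume := by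
    refine ⟨L.continuous.measurable, ?_⟩
    have h1 := Measure.map_linearMap_addHaar_eq_smul_addHaar (volume : Measure E3) hdet
    have h2 : Measure.map L volume = ENNReal.ofReal |(LinearMap.det (L : E3 →ₗ[ℝ] E3))⁻¹| • volume := h1
    rw [hν, Measure.map_smul, h2, smul_smul, abs_inv, ← hd, ← ENNReal.ofReal_mul hd0.le,
      mul_inv_cancel₀ hd0.ne', ENNReal.ofReal_one, one_smul]
  have h1 := ZLattice.covolume_comap Λ volume ν hmp
  set Λ' := ZLattice.comap ℝ Λ L.toLinearMap with hL
  have hb := ZLattice.isAddFundamentalDomain (Module.Free.chooseBasis ℤ Λ') ν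
  have hb' := ZLattice.isAddFundamentalDomain (Module.Free.chooseBasis ℤ Λ') (volume : Measure E3)
  rw [ZLattice.covolume_eq_measure_fundamentalDomain Λ' ν hb] at h1
  rw [ZLattice.covolume_eq_measure_fundamentalDomain Λ' volume hb', ← h1, hν,
    measureReal_ennreal_smul_apply, ENNReal.toReal_ofReal hd0.le, mul_comm]

/-- `δ_L` does not increase under affine bijections. -/
theorem deltaL_image_le {K : Set E3} (hK : IsCompact K) (L : E3 ≃L[ℝ] E3) (c : E3) :
    deltaL (c +ᵥ L '' K) ≤ deltaL K := by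
  have hdet : LinearMap.det (L : E3 →ₗ[ℝ] E3) ≠ 0 := (LinearEquiv.isUnit_det' L.toLinearEquiv).ne_zero
  have hK' : IsCompact (c +ᵥ L '' K) := (hK.image L.continuous).vadd c
  conv_lhs => unfold deltaL
  refine iSup_le (fun Λ => iSup_le (fun h1 => iSup_le (fun h2 => iSup_le (fun h3 => ?_))))
  rw [density_eq' _ hK']
  set Λ' := ZLattice.comap ℝ Λ L.toLinearMap with hΛ'
  have hp : IsPacking K (Λ' : Set E3) := by
    intro u hu v hv huv
    have hu' : L u ∈ Λ := hu
    have hv' : L v ∈ Λ := hv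
    have h := h3 (L u) hu' (L v) hv' (fun h => huv (L.injective h))
    rw [Set.disjoint_left] at h ⊢
    intro z hz1 hz2
    have key : ∀ w : E3, z ∈ interior (w +ᵥ K) → c + L z ∈ interior (L w +ᵥ (c +ᵥ L '' K)) := by
      intro w hw
      have e : L w +ᵥ (c +ᵥ L '' K) = c +ᵥ L '' (w +ᵥ K) := by
        ext y
        constructor
        · rintro ⟨_, ⟨_, ⟨x, hx, rfl⟩, rfl⟩, rfl⟩
          refine ⟨L (w + x), ⟨w + x, ⟨x, hx, rfl⟩, rfl⟩, ?_⟩
          show c + L (w + x) = L w + (c + L x)
          rw [map_add]; abel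
        · rintro ⟨_, ⟨_, ⟨x, hx, rfl⟩, rfl⟩, rfl⟩
          refine ⟨c + L x, ⟨L x, ⟨x, hx, rfl⟩, rfl⟩, ?_⟩
          show L w + (c + L x) = c + L (w + x)
          rw [map_add]; abel
      rw [e, interior_vadd]
      refine ⟨L z, ?_, rfl⟩
      have h5 : L '' interior (w +ᵥ K) = interior (L '' (w +ᵥ K)) :=
        L.toHomeomorph.image_interior _
      rw [← h5]
      exact ⟨z, hw, rfl⟩
    exact h (key u hz1) (key v hz2)
  refine le_trans ?_ (le_deltaL Λ' hp)
  rw [density_eq' K hK, measure_vadd]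
  have hv : volume (L '' K) = ENNReal.ofReal |LinearMap.det (L : E3 →ₗ[ℝ] E3)| * volume K :=
    Measure.addHaar_image_linearMap volume (L : E3 →ₗ[ℝ] E3) K
  have hcov := covolume_comap_lin Λ L
  rw [hv, ← hcov, ← hΛ', mul_comm (ZLattice.covolume Λ' volume),
    ENNReal.ofReal_mul (abs_nonneg _)]
  have hd0 : ENNReal.ofReal |LinearMap.det (L : E3 →ₗ[ℝ] E3)| ≠ 0 := by
    simpa using hdet
  rw [ENNReal.mul_div_mul_left _ _ hd0 ENNReal.ofReal_ne_top]

end Pool.Agent.Helper47.CO
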