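import Pool.Agent.Helper47.CO.Vol
import Pool.Agent.Helper84.Tet.TetUp

/-!
# Truncated cones: the main theorem
-/

set_option autoImplicit false
namespace Pool.Agent.Helper47.CO
open MeasureTheory Filter Topology Metric
open scoped Pointwise ENNReal
open Pool.Agent.Helper84.Tet

/-- A truncated cone: the convex hull of a compact convex set `Q` lying in a plane and of a
smaller homothetic copy `v + t • Q`, `0 ≤ t < 1`. For `t = 0` this is the cone with base `Q` and
apex `v`. -/
def IsTruncatedCone (K : Set E3) : Prop :=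
  ∃ (Q : Set E3) (v : E3) (t : ℝ) (f : E3 →ₗ[ℝ] ℝ) (c : ℝ), Convex ℝ Q ∧ IsCompact Q ∧ f ≠ 0 ∧
    (∀ x ∈ Q, f x = c) ∧ 0 ≤ t ∧ t < 1 ∧ K = convexHull ℝ (Q ∪ (v +ᵥ t • Q))

/-- A tetrahedron: the convex hull of four affinely independent points. -/
def IsTetrahedron (K : Set E3) : Prop :=
  ∃ v : Fin 4 → E3, AffineIndependent ℝ v ∧ K = convexHull ℝ (Set.range v)

theorem hull_le {S : Set E3} {g : E3 →ₗ[ℝ] ℝ} {c : ℝ} (h : ∀ x ∈ S, g x ≤ c) :
    ∀ x ∈ convexHull ℝ S, g x ≤ c := fun _ hx =>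
  (convexHull_min (t := {x | g x ≤ c}) h (convex_halfSpace_le g.isLinear c)) hx

/-- The reduced data of a truncated cone, with the apex `p`. -/
structure Data (K Q : Set E3) (p : E3) (t : ℝ) : Prop where
  convex : Convex ℝ Q
  compact : IsCompact Q
  t0 : 0 ≤ t
  t1 : t < 1
  hull : K = convexHull ℝ (Q ∪ (fun x => p + t • (x - p)) '' Q)

theorem IsTruncatedCone.data {K : Set E3} (h : IsTruncatedCone K) :
    ∃ (Q : Set E3) (p : E3) (t : ℝ) (f : E3 →ₗ[ℝ] ℝ) (c : ℝ), Data K Q p t ∧ f ≠ 0 ∧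
      ∀ x ∈ Q, f x = c := by
  obtain ⟨Q, v, t, f, c, h1, h2, h3, h4, h5, h6, h7⟩ := h
  have ht : (1 - t) ≠ 0 := by linarith
  refine ⟨Q, (1 - t)⁻¹ • v, t, f, c, ⟨h1, h2, h5, h6, ?_⟩, h3, h4⟩
  rw [h7]
  congr 2
  have e : ∀ x : E3, v + t • x = (1 - t)⁻¹ • v + t • (x - (1 - t)⁻¹ • v) := by
    intro x
    have e1 : v = (1 - t) • ((1 - t)⁻¹ • v) := by rw [smul_smul, mul_inv_cancel₀ ht, one_smul]
    nth_rewrite 1 [e1]
    module
  ext y
  constructor
  · rintro ⟨_, ⟨x, hx, rfl⟩, rfl⟩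
    exact ⟨x, hx, (e x).symm⟩
  · rintro ⟨x, hx, rfl⟩
    exact ⟨t • x, ⟨x, hx, rfl⟩, e x⟩

theorem Data.eq_zero {K Q : Set E3} {p : E3} {t : ℝ} (d : Data K Q p t)
    (hne : (interior K).Nonempty) {g : E3 →ₗ[ℝ] ℝ} (hg : ∀ x ∈ Q, g (x - p) = 0) : g = 0 := by
  by_contra hg0
  obtain ⟨w, hw⟩ : ∃ w, g w ≠ 0 := by
    by_contra hcon
    push Not at hcon
    exact hg0 (LinearMap.ext hcon)
  obtain ⟨x, hx⟩ := hne
  have gen : ∀ y ∈ Q ∪ (fun x => p + t • (x - p)) '' Q, g y = g p := by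
    rintro y (hy | ⟨z, hz, rfl⟩)
    · have := hg y hy
      rw [map_sub] at this; linarith
    · have := hg z hz
      show g (p + t • (z - p)) = g p
      rw [map_add, map_smul, this, smul_zero, add_zero]
  have key : ∀ (g' : E3 →ₗ[ℝ] ℝ) (w' : E3), 0 < g' w' →
      (∀ y ∈ Q ∪ (fun x => p + t • (x - p)) '' Q, g' y ≤ g' p) → g' x < g' p := by
    intro g' w' hw' hy
    exact strict_interior hw' (by rw [d.hull]; exact hull_le hy) hx
  rcases lt_or_gt_of_ne hw with h | h
  · have h1 := key g (-w) (by rw [map_neg]; linarith) (fun y hy => (gen y hy).le)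
    have h2 := key (-g) w (by rw [LinearMap.neg_apply]; linarith)
      (fun y hy => by rw [LinearMap.neg_apply, LinearMap.neg_apply, gen y hy])
    rw [LinearMap.neg_apply, LinearMap.neg_apply] at h2
    linarith
  · have h1 := key g w h (fun y hy => (gen y hy).le)
    have h2 := key (-g) (-w) (by rw [LinearMap.neg_apply, map_neg]; linarith)
      (fun y hy => by rw [LinearMap.neg_apply, LinearMap.neg_apply, gen y hy])
    rw [LinearMap.neg_apply, LinearMap.neg_apply] at h2
    linarith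

theorem Data.exists_triple {K Q : Set E3} {p : E3} {t : ℝ} (d : Data K Q p t)
    (hne : (interior K).Nonempty) : ∃ q : Fin 3 → E3, (∀ i, q i ∈ Q) ∧
      std.det (fun i => q i - p) ≠ 0 := by
  set S : Set E3 := (fun x => x - p) '' Q with hS
  have hspan : Submodule.span ℝ S = ⊤ := by
    by_contra hcon
    obtain ⟨g, hg0, hg⟩ := Submodule.exists_le_ker_of_lt_top _ (lt_top_iff_ne_top.2 hcon)
    apply hg0
    apply d.eq_zero hne
    intro x hx
    exact hg (Submodule.subset_span ⟨x, hx, rfl⟩)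
  obtain ⟨T, hTS, hTspan, hli⟩ := exists_linearIndependent ℝ S
  have htop : ⊤ ≤ Submodule.span ℝ (Set.range (Subtype.val : T → E3)) := by
    rw [Subtype.range_coe, hTspan, hspan]
  set B := Module.Basis.mk hli htop with hBdef
  have hB : ∀ i : T, B i = (i : E3) := by
    intro i; simp [hBdef]
  have : Fintype T := FiniteDimensional.fintypeBasisIndex B
  have hcard : Fintype.card T = 3 := by
    rw [← Module.finrank_eq_card_basis B]; simp
  let e : T ≃ Fin 3 := Fintype.equivFinOfCardEq hcard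
  set B' := B.reindex e with hB'
  have hmem : ∀ i, ∃ x ∈ Q, x - p = B' i := by
    intro i
    have h1 : B' i = ((e.symm i : T) : E3) := by rw [hB', Module.Basis.reindex_apply, hB]
    obtain ⟨x, hx, hxe⟩ := hTS (e.symm i).2
    exact ⟨x, hx, by rw [h1]; exact hxe⟩
  choose q hq hqB using hmem
  refine ⟨q, hq, ?_⟩
  have : (fun i => q i - p) = B' := by ext1 i; exact hqB i
  rw [this]
  exact (std.isUnit_det B').ne_zero

theorem continuous_det : Continuous (fun w : Fin 3 → E3 => std.det w) := by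
  have : (fun w : Fin 3 → E3 => std.det w) = fun w => Matrix.det (fun i j => w j i) := by
    ext w
    rw [Module.Basis.det_apply]
    rfl
  rw [this]
  apply Continuous.matrix_det
  fun_prop

/-- The triangle of maximal area. -/
theorem Data.exists_max {K Q : Set E3} {p : E3} {t : ℝ} (d : Data K Q p t)
    (hne : (interior K).Nonempty) : ∃ (q : Fin 3 → E3) (b : Module.Basis (Fin 3) ℝ E3),
      (∀ i, q i ∈ Q) ∧ (∀ i, b i = q i - p) ∧
      ∀ q' : Fin 3 → E3, (∀ i, q' i ∈ Q) → |std.det (fun i => q' i - p)| ≤ |std.det b| := by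
  obtain ⟨q₀, hq₀, hdet₀⟩ := d.exists_triple hne
  have hcomp : IsCompact (Set.pi Set.univ (fun _ : Fin 3 => Q)) :=
    isCompact_univ_pi (fun _ => d.compact)
  have hcont : Continuous (fun q : Fin 3 → E3 => |std.det (fun i => q i - p)|) := by
    have h1 : Continuous (fun q : Fin 3 → E3 => fun i => q i - p) := by fun_prop
    exact (continuous_det.comp h1).abs
  obtain ⟨q, hq, hmax⟩ := hcomp.exists_isMaxOn ⟨q₀, fun i _ => hq₀ i⟩ hcont.continuousOn
  have hmax' : ∀ q' : Fin 3 → E3, (∀ i, q' i ∈ Q) →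
      |std.det (fun i => q' i - p)| ≤ |std.det (fun i => q i - p)| := by
    intro q' hq'
    exact hmax (fun i _ => hq' i)
  have hpos : std.det (fun i => q i - p) ≠ 0 := by
    intro h
    have := hmax' q₀ hq₀
    rw [h, abs_zero] at this
    exact hdet₀ (abs_nonpos_iff.1 this)
  have hli := (std.is_basis_iff_det (v := fun i => q i - p)).2 (isUnit_iff_ne_zero.2 hpos)
  refine ⟨q, Module.Basis.mk hli.1 hli.2.ge, fun i => hq i (Set.mem_univ i), ?_, ?_⟩
  · intro i; simp
  · intro q' hq'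
    rw [Module.Basis.coe_mk]
    exact hmax' q' hq'

theorem Data.mem_of {K Q : Set E3} {p : E3} {t : ℝ} (d : Data K Q p t) {w : Fin 3 → E3}
    (hw : ∀ i, w i ∈ Q) {x : E3} (hx : x ∈ TS t) : p + ∑ j, x j • (w j - p) ∈ K := by
  obtain ⟨hx0, hx1, hx2⟩ := hx
  set s := ∑ i, x i with hs
  have ht := d.t0
  have ht1 := d.t1
  have hs0 : 0 < s := lt_of_le_of_lt ht hx1
  set y : E3 := ∑ j, (x j / s) • w j with hy
  have hyQ : y ∈ Q := by
    refine d.convex.sum_mem (fun j _ => div_nonneg (hx0 j).le hs0.le) ?_ (fun j _ => hw j)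
    rw [← Finset.sum_div, ← hs, div_self hs0.ne']
  have h1 : y ∈ K := by
    rw [d.hull]; exact subset_convexHull ℝ _ (Or.inl hyQ)
  have h2 : p + t • (y - p) ∈ K := by
    rw [d.hull]; exact subset_convexHull ℝ _ (Or.inr ⟨y, hyQ, rfl⟩)
  have hconv : Convex ℝ K := by rw [d.hull]; exact convex_convexHull ℝ _
  have h1t : 0 < 1 - t := by linarith
  have h3 := hconv h1 h2 (a := (s - t) / (1 - t)) (b := (1 - s) / (1 - t))
    (div_nonneg (by linarith) h1t.le) (div_nonneg (by linarith) h1t.le)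
    (by rw [← add_div, div_eq_one_iff_eq h1t.ne']; ring)
  have e : p + ∑ j, x j • (w j - p) = p + s • (y - p) := by
    congr 1
    rw [smul_sub, hy, Finset.smul_sum]
    simp only [smul_sub, Finset.sum_sub_distrib, smul_smul]
    rw [← Finset.sum_smul, ← hs]
    congr 1
    refine Finset.sum_congr rfl (fun j _ => ?_)
    rw [mul_div_cancel₀ _ hs0.ne']
  rw [e]
  have e2 : p + s • (y - p) =
      ((s - t) / (1 - t)) • y + ((1 - s) / (1 - t)) • (p + t • (y - p)) := by
    have k1 : (s - t) / (1 - t) + (1 - s) / (1 - t) * t = s := by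
      field_simp; ring
    have k2 : (s - t) / (1 - t) + (1 - s) / (1 - t) = 1 := by
      rw [← add_div, div_eq_one_iff_eq h1t.ne']; ring
    have k3 : (1 - s) / (1 - t) = 1 - (s - t) / (1 - t) := by linarith
    rw [k3] at k1 ⊢
    have k4 : s = (s - t) / (1 - t) + (1 - (s - t) / (1 - t)) * t := k1.symm
    generalize (s - t) / (1 - t) = l at k4 ⊢
    rw [k4]
    module
  rw [e2]; exact h3

end Pool.Agent.Helper47.CO
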