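import Pool.Agent.Helper47.CO.Geo
import Pool.Agent.Helper84.Tet.Vol

/-!
# The volume of truncated cones
-/

set_option autoImplicit false
namespace Pool.Agent.Helper47.CO
open MeasureTheory Filter Topology Metric
open scoped Pointwise ENNReal
open Pool.Agent.Helper84.Tet

/-- The open truncated standard simplex. -/
def TS (u : ℝ) : Set E3 := {x | (∀ i, 0 < x i) ∧ u < ∑ i, x i ∧ ∑ i, x i < 1}

theorem le_vol_TS {u : ℝ} (hu : 0 ≤ u) : ENNReal.ofReal ((1 - u ^ 3) / 6) ≤ volume (TS u) := by
  have hmp : MeasurePreserving (WithLp.ofLp : E3 → (Fin 3 → ℝ)) volume volume :=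
    PiLp.volume_preserving_ofLp (Fin 3)
  have hS : TS u = (WithLp.ofLp : E3 → (Fin 3 → ℝ)) ⁻¹' (SimpO 1 \ SimpP u) := by
    ext x
    simp only [TS, SimpO, SimpP, Set.mem_ofPred_eq, Set.mem_preimage, Set.mem_sdiff,
      Fin.sum_univ_three, Fin.forall_fin_succ]
    constructor
    · rintro ⟨⟨h0, h1, h2, -⟩, h3, h4⟩
      exact ⟨⟨h0, h1, h2, h4⟩, fun h => not_le.2 h3 h.2.2.2⟩
    · rintro ⟨⟨h0, h1, h2, h4⟩, h⟩
      refine ⟨⟨h0, h1, h2, fun i => i.elim0⟩, ?_, h4⟩
      by_contra h3
      exact h ⟨h0, h1, h2, not_lt.1 h3⟩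
  have hmP : MeasurableSet (SimpP u) := measurableSet_SimpP u
  have hmO : MeasurableSet (SimpO 1) := by
    unfold SimpO
    refine MeasurableSet.inter ?_ (MeasurableSet.inter ?_ (MeasurableSet.inter ?_ ?_))
    · exact measurableSet_lt measurable_const (measurable_pi_apply 0)
    · exact measurableSet_lt measurable_const (measurable_pi_apply 1)
    · exact measurableSet_lt measurable_const (measurable_pi_apply 2)
    · exact measurableSet_lt (((measurable_pi_apply 0).add (measurable_pi_apply 1)).add
        (measurable_pi_apply 2)) measurable_const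
  rw [hS, hmp.measure_preimage (hmO.diff hmP).nullMeasurableSet]
  have h1 := le_vol_SimpO (s := 1) zero_le_one
  have h2 := vol_SimpP_le hu
  have h3 : volume (SimpO 1) ≤ volume (SimpO 1 \ SimpP u) + volume (SimpP u) := by
    refine le_trans (measure_mono ?_) (measure_union_le _ _)
    intro x hx
    by_cases hx' : x ∈ SimpP u
    · exact Or.inr hx'
    · exact Or.inl ⟨hx, hx'⟩
  have h4 : ENNReal.ofReal ((1 - u ^ 3) / 6) + ENNReal.ofReal (u ^ 3 / 6) ≤
      volume (SimpO 1 \ SimpP u) + ENNReal.ofReal (u ^ 3 / 6) := by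
    by_cases hu1 : u ≤ 1
    · have h0 : u ^ 3 ≤ 1 := pow_le_one₀ hu hu1
      rw [← ENNReal.ofReal_add (by linarith) (by positivity)]
      refine le_trans ?_ ((h1.trans h3).trans (add_le_add le_rfl h2))
      apply ENNReal.ofReal_le_ofReal
      linarith
    · have h0 : 1 ≤ u ^ 3 := one_le_pow₀ (le_of_not_ge hu1)
      rw [ENNReal.ofReal_of_nonpos (by linarith), zero_add]
      exact le_add_self
  exact (ENNReal.add_le_add_iff_right ENNReal.ofReal_ne_top).1 h4

/-- The linear map with given values on the standard basis. -/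
noncomputable def linOf (v : Fin 3 → E3) : E3 →ₗ[ℝ] E3 := std.constr ℝ v

theorem linOf_apply (v : Fin 3 → E3) (x : E3) : linOf v x = ∑ i, x i • v i := by
  unfold linOf
  rw [Module.Basis.constr_apply_fintype]
  refine Finset.sum_congr rfl (fun i _ => ?_)
  simp

theorem det_linOf (v : Fin 3 → E3) : LinearMap.det (linOf v) = std.det v := by
  have h := std.det_comp (linOf v) std
  rw [std.det_self, mul_one] at h
  rw [← h]
  congr 1
  ext i : 1
  simp [linOf]

/-- The volume of the image of the truncated simplex. -/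
theorem le_vol_image {u : ℝ} (hu : 0 ≤ u) (v : Fin 3 → E3) (p : E3) {G : Set E3}
    (hG : ∀ x ∈ TS u, p + ∑ i, x i • v i ∈ G) :
    ENNReal.ofReal (|std.det v| * ((1 - u ^ 3) / 6)) ≤ volume G := by
  have h1 : p +ᵥ (linOf v '' TS u) ⊆ G := by
    rintro _ ⟨_, ⟨x, hx, rfl⟩, rfl⟩
    have := hG x hx
    rw [← linOf_apply] at this
    exact this
  refine le_trans ?_ (measure_mono h1)
  rw [measure_vadd, Measure.addHaar_image_linearMap, det_linOf, ENNReal.ofReal_mul (abs_nonneg _)]
  exact mul_le_mul_right (le_vol_TS hu) _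

theorem det_update (b : Module.Basis (Fin 3) ℝ E3) (i : Fin 3) (x : E3) :
    b.det (Function.update b i x) = b.repr x i := by
  have h := Module.Basis.det_smul_mk_coord_eq_det_update (e := b) b.linearIndependent
    b.span_eq.ge i
  have h2 := LinearMap.congr_fun h x
  rw [LinearMap.smul_apply, b.det_self, one_smul] at h2
  have h3 : Module.Basis.mk b.linearIndependent b.span_eq.ge = b := by
    ext j : 1
    simp
  rw [h3, Module.Basis.coord_apply] at h2
  rw [h2]
  rfl

theorem std_det_update (b : Module.Basis (Fin 3) ℝ E3) (i : Fin 3) (x : E3) :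
    std.det (Function.update b i x) = std.det b * b.repr x i := by
  rw [AlternatingMap.eq_smul_basis_det b std.det, AlternatingMap.smul_apply, smul_eq_mul,
    det_update]
  congr 1
  simp [Module.Basis.det_self]

/-- The four disjoint pieces. -/
def piece (b : Module.Basis (Fin 3) ℝ E3) (p : E3) (K : Set E3) : Option (Fin 3) → Set E3
  | none => {y | y ∈ K ∧ ∀ j, 0 < b.repr (y - p) j}
  | some i => {y | y ∈ K ∧ b.repr (y - p) i < 0 ∧ ∀ j, j ≠ i → 0 < b.repr (y - p) j}

theorem continuous_coord (b : Module.Basis (Fin 3) ℝ E3) (p : E3) (j : Fin 3) :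
    Continuous (fun y : E3 => b.repr (y - p) j) := by
  have h : Continuous (b.coord j) := (b.coord j).continuous_of_finiteDimensional
  exact h.comp (continuous_id.sub continuous_const)

theorem piece_measurable (b : Module.Basis (Fin 3) ℝ E3) (p : E3) {K : Set E3}
    (hK : IsCompact K) (k : Option (Fin 3)) : MeasurableSet (piece b p K k) := by
  rcases k with _ | i
  · refine hK.measurableSet.inter ?_
    have : {y : E3 | ∀ j, 0 < b.repr (y - p) j} = ⋂ j, {y : E3 | 0 < b.repr (y - p) j} := by
      ext y; simp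
    change MeasurableSet {y : E3 | ∀ j, 0 < b.repr (y - p) j}
    rw [this]
    exact MeasurableSet.iInter (fun j =>
      (isOpen_lt continuous_const (continuous_coord b p j)).measurableSet)
  · refine hK.measurableSet.inter (MeasurableSet.inter ?_ ?_)
    · exact (isOpen_lt (continuous_coord b p i) continuous_const).measurableSet
    · have : {y : E3 | ∀ j, j ≠ i → 0 < b.repr (y - p) j} =
          ⋂ j, ⋂ (_ : j ≠ i), {y : E3 | 0 < b.repr (y - p) j} := by
        ext y; simp
      change MeasurableSet {y : E3 | ∀ j, j ≠ i → 0 < b.repr (y - p) j}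
      rw [this]
      exact MeasurableSet.iInter (fun j => MeasurableSet.iInter (fun _ =>
        (isOpen_lt continuous_const (continuous_coord b p j)).measurableSet))

theorem piece_disjoint (b : Module.Basis (Fin 3) ℝ E3) (p : E3) (K : Set E3) :
    Pairwise (Function.onFun Disjoint (piece b p K)) := by
  intro k l hkl
  rw [Function.onFun, Set.disjoint_left]
  intro y hy hy'
  rcases k with _ | i <;> rcases l with _ | j
  · exact hkl rfl
  · exact absurd hy'.2.1 (not_lt.2 (hy.2 j).le)
  · exact absurd hy.2.1 (not_lt.2 (hy'.2 i).le)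
  · have hij : i ≠ j := fun h => hkl (by rw [h])
    exact absurd hy.2.1 (not_lt.2 (hy'.2.2 i hij).le)

/-- The lower bound for the volume. -/
theorem le_vol_body {K : Set E3} (hK : IsCompact K) {p : E3} {b : Module.Basis (Fin 3) ℝ E3}
    {u : ℝ} (hu : 0 ≤ u) (hu1 : u < 1) {a : Fin 3 → ℝ} (ha : ∀ i, 0 ≤ a i) (r : Fin 3 → E3)
    (hr : ∀ i, b.repr (r i) i = -a i) (hr' : ∀ i j, j ≠ i → 0 ≤ b.repr (r i) j)
    (hin0 : ∀ x ∈ TS u, p + ∑ j, x j • b j ∈ K)
    (hin1 : ∀ i, ∀ x ∈ TS u, p + ∑ j, x j • Function.update b i (r i) j ∈ K) :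
    ENNReal.ofReal (|std.det b| * (1 + ∑ i, a i) * (1 - u ^ 3) / 6) ≤ volume K := by
  have hu3 : 0 ≤ 1 - u ^ 3 := by
    have := pow_le_one₀ hu hu1.le (n := 3); linarith
  have hb0 : 0 ≤ |std.det b| := abs_nonneg _
  -- the pieces
  have h0 : ENNReal.ofReal (|std.det b| * ((1 - u ^ 3) / 6)) ≤ volume (piece b p K none) := by
    refine le_vol_image hu b p ?_
    intro x hx
    refine ⟨hin0 x hx, fun j => ?_⟩
    rw [add_sub_cancel_left]
    have : b.repr (∑ i, x i • b i) j = x j := by
      simp [Finsupp.single_apply]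
    rw [this]
    exact hx.1 j
  have h1 : ∀ i, ENNReal.ofReal (|std.det b| * a i * ((1 - u ^ 3) / 6)) ≤
      volume (piece b p K (some i)) := by
    intro i
    rcases (ha i).eq_or_lt with h | h
    · rw [← h]; simp
    · have e : |std.det b| * a i = |std.det (Function.update b i (r i))| := by
        rw [std_det_update, hr, abs_mul, abs_neg, abs_of_pos h]
      rw [e]
      refine le_vol_image hu _ p ?_
      intro x hx
      have hc : ∀ j, b.repr (∑ k, x k • Function.update b i (r i) k) j =
          x i * b.repr (r i) j + (if j = i then 0 else x j) := by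
        intro j
        rw [← Finset.add_sum_erase _ _ (Finset.mem_univ i), Function.update_self, map_add,
          map_smul]
        have e2 : ∑ k ∈ Finset.univ.erase i, x k • Function.update b i (r i) k =
            ∑ k ∈ Finset.univ.erase i, x k • b k := by
          refine Finset.sum_congr rfl (fun k hk => ?_)
          rw [Function.update_of_ne (Finset.ne_of_mem_erase hk)]
        rw [e2, Finsupp.add_apply, Finsupp.smul_apply, smul_eq_mul]
        congr 1
        simp only [map_sum, map_smul, Module.Basis.repr_self, Finsupp.coe_finsetSum,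
          Finset.sum_apply, Finsupp.smul_apply, Finsupp.single_apply, smul_eq_mul, mul_ite,
          mul_one, mul_zero]
        rw [Finset.sum_ite_eq']
        simp
      refine ⟨hin1 i x hx, ?_, ?_⟩
      · rw [add_sub_cancel_left, hc i, if_pos rfl, hr, add_zero]
        have := mul_pos (hx.1 i) h
        linarith
      · intro j hj
        rw [add_sub_cancel_left, hc j, if_neg hj]
        have := mul_nonneg (hx.1 i).le (hr' i j hj)
        have := hx.1 j
        linarith
  -- the sum
  have h2 : ∑ k, volume (piece b p K k) ≤ volume K := by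
    rw [← tsum_fintype (L := .unconditional _), ← measure_iUnion (piece_disjoint b p K) (piece_measurable b p hK)]
    refine measure_mono (Set.iUnion_subset (fun k => ?_))
    rcases k with _ | i
    · exact fun y hy => hy.1
    · exact fun y hy => hy.1
  refine le_trans ?_ h2
  rw [Fintype.sum_option]
  have h3 : ENNReal.ofReal (|std.det b| * (1 + ∑ i, a i) * (1 - u ^ 3) / 6) =
      ENNReal.ofReal (|std.det b| * ((1 - u ^ 3) / 6)) +
      ∑ i, ENNReal.ofReal (|std.det b| * a i * ((1 - u ^ 3) / 6)) := by
    rw [← ENNReal.ofReal_sum_of_nonneg (fun i _ => by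
      have := ha i; positivity), ← ENNReal.ofReal_add (by positivity) (by
      refine Finset.sum_nonneg (fun i _ => ?_)
      have := ha i; positivity)]
    congr 1
    rw [← Finset.sum_mul, ← Finset.mul_sum]
    ring
  rw [h3]
  exact add_le_add h0 (Finset.sum_le_sum (fun i _ => h1 i))

end Pool.Agent.Helper47.CO
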