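import Pool.Agent.Helper47.CO.Geo

/-!
# Lattice packings of a body with given widths
-/

set_option autoImplicit false
namespace Pool.Agent.Helper47.CO
open MeasureTheory Filter Topology Metric
open scoped Pointwise ENNReal
open Pool.Agent.Helper84.Tet

/-- The family of lattices. -/
theorem famW {w0 w1 w2 w3 e1 e2 e3 h1 h2 h3 c12 c13 c21 c23 c31 c32 : ℝ}
    (hh1 : 0 < h1) (hh2 : 0 < h2) (hh3 : 0 < h3)
    (hs : w0 ≤ h1 + h2 + h3) (k12 : h1 ≤ c12) (k13 : h1 ≤ c13) (k21 : h2 ≤ c21) (k23 : h2 ≤ c23)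
    (k31 : h3 ≤ c31) (k32 : h3 ≤ c32) (col1 : w1 ≤ c21 + c31) (col2 : w2 ≤ c12 + c32)
    (col3 : w3 ≤ c13 + c23) (row1 : e1 ≤ c12 + c13) (row2 : e2 ≤ c21 + c23)
    (row3 : e3 ≤ c31 + c32) (n1 n2 n3 : ℤ)
    (hn : ¬ (n1 = 0 ∧ n2 = 0 ∧ n3 = 0)) {H : ℝ} (hHdef : H = n1 * h1 + n2 * h2 + n3 * h3)
    (hH : 0 ≤ H) :
    w0 ≤ H ∨
    (e1 ≤ H + (n1 * (c12 + c13 - h1) - n2 * c21 - n3 * c31) ∨
      w1 ≤ -(n1 * (c12 + c13 - h1) - n2 * c21 - n3 * c31)) ∨
    (e2 ≤ H + (n2 * (c21 + c23 - h2) - n1 * c12 - n3 * c32) ∨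
      w2 ≤ -(n2 * (c21 + c23 - h2) - n1 * c12 - n3 * c32)) ∨
    (e3 ≤ H + (n3 * (c31 + c32 - h3) - n1 * c13 - n2 * c23) ∨
      w3 ≤ -(n3 * (c31 + c32 - h3) - n1 * c13 - n2 * c23)) := by
  have p12 : 0 ≤ c12 := hh1.le.trans k12
  have p13 : 0 ≤ c13 := hh1.le.trans k13
  have p21 : 0 ≤ c21 := hh2.le.trans k21
  have p23 : 0 ≤ c23 := hh2.le.trans k23
  have p31 : 0 ≤ c31 := hh3.le.trans k31
  have p32 : 0 ≤ c32 := hh3.le.trans k32
  rcases int_cases n1 with m1 | m1 <;> rcases int_cases n2 with m2 | m2 <;>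
    rcases int_cases n3 with m3 | m3
  · left
    have e1 := mul_nonneg (sub_nonneg.2 m1) hh1.le
    have e2 := mul_nonneg (sub_nonneg.2 m2) hh2.le
    have e3 := mul_nonneg (sub_nonneg.2 m3) hh3.le
    rw [hHdef]; linarith
  · right; right; right; right
    have f1 := mul_nonneg (sub_nonneg.2 m1) p13
    have f2 := mul_nonneg (sub_nonneg.2 m2) p23
    have f3 := mul_nonneg (neg_nonneg.2 m3) (by linarith : (0:ℝ) ≤ c31 + c32 - h3)
    linarith
  · right; right; left; right
    have f1 := mul_nonneg (sub_nonneg.2 m1) p12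
    have f2 := mul_nonneg (sub_nonneg.2 m3) p32
    have f3 := mul_nonneg (neg_nonneg.2 m2) (by linarith : (0:ℝ) ≤ c21 + c23 - h2)
    linarith
  · right; left; left
    have f1 := mul_nonneg (sub_nonneg.2 m1) (by linarith : (0:ℝ) ≤ c12 + c13)
    have f2 := mul_nonneg (neg_nonneg.2 m2) (sub_nonneg.2 k21)
    have f3 := mul_nonneg (neg_nonneg.2 m3) (sub_nonneg.2 k31)
    rw [hHdef]; linarith
  · right; left; right
    have f1 := mul_nonneg (sub_nonneg.2 m2) p21
    have f2 := mul_nonneg (sub_nonneg.2 m3) p31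
    have f3 := mul_nonneg (neg_nonneg.2 m1) (by linarith : (0:ℝ) ≤ c12 + c13 - h1)
    linarith
  · right; right; left; left
    have f1 := mul_nonneg (sub_nonneg.2 m2) (by linarith : (0:ℝ) ≤ c21 + c23)
    have f2 := mul_nonneg (neg_nonneg.2 m1) (sub_nonneg.2 k12)
    have f3 := mul_nonneg (neg_nonneg.2 m3) (sub_nonneg.2 k32)
    rw [hHdef]; linarith
  · right; right; right; left
    have f1 := mul_nonneg (sub_nonneg.2 m3) (by linarith : (0:ℝ) ≤ c31 + c32)
    have f2 := mul_nonneg (neg_nonneg.2 m1) (sub_nonneg.2 k13)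
    have f3 := mul_nonneg (neg_nonneg.2 m2) (sub_nonneg.2 k23)
    rw [hHdef]; linarith
  · exfalso
    have e1 := mul_nonneg (neg_nonneg.2 m1) hh1.le
    have e2 := mul_nonneg (neg_nonneg.2 m2) hh2.le
    have e3 := mul_nonneg (neg_nonneg.2 m3) hh3.le
    apply hn
    have z : ∀ (n : ℤ) (h : ℝ), 0 < h → -(n : ℝ) * h = 0 → n = 0 := by
      intro n h hh hz
      rcases mul_eq_zero.1 hz with h0 | h0
      · exact_mod_cast neg_eq_zero.1 h0
      · exact absurd h0 hh.ne'
    refine ⟨z n1 h1 hh1 ?_, z n2 h2 hh2 ?_, z n3 h3 hh3 ?_⟩ <;> nlinarith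

/-- A general version of the density bound: a packing lattice given by a matrix. -/
theorem density_of_matrix {K : Set E3} (hK : IsCompact K) (b : Module.Basis (Fin 3) ℝ E3)
    {M : Matrix (Fin 3) (Fin 3) ℝ} {D V B : ℝ} (hdet : M.det = -D) (hD : 0 < D)
    (hex : ∀ n : Fin 3 → ℤ, n ≠ 0 → (∑ j, ∑ i, (n i : ℝ) * M i j) ≤ 0 → ∀ w : E3,
      (∀ j, b.repr w j = ∑ i, (n i : ℝ) * M i j) → ∀ x ∈ interior K, ∀ y ∈ interior K,
        x - y ≠ w)
    (hvol : ENNReal.ofReal (|std.det b| * V / 6) ≤ volume K) (hB : 49 / 108 * V = B) :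
    (D ≤ B → 18 / 49 ≤ deltaL K) ∧ (D < B → 18 / 49 < deltaL K) := by
  have hM : M.det ≠ 0 := by rw [hdet]; linarith
  obtain ⟨W, hW, hWdet⟩ := exists_lattice_basis (b := b) hM
  have hb0 : 0 < |std.det b| := abs_pos.2 (std.isUnit_det b).ne_zero
  have hWabs : |std.det W| = |std.det b| * D := by
    rw [hWdet, hdet, abs_mul, abs_neg, abs_of_pos hD]
  have hpack : ∀ n : Fin 3 → ℤ, n ≠ 0 → ∀ x ∈ interior K, ∀ y ∈ interior K,
      x - y ≠ ∑ i, (n i : ℝ) • W i := by
    have hcoord : ∀ n : Fin 3 → ℤ, ∀ j, b.repr (∑ i, (n i : ℝ) • W i) j =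
        ∑ i, (n i : ℝ) * M i j := by
      intro n j
      simp only [map_sum, map_smul, Finsupp.coe_finsetSum, Finset.sum_apply, Finsupp.coe_smul,
        Pi.smul_apply, smul_eq_mul]
      refine Finset.sum_congr rfl (fun i _ => ?_)
      rw [hW i]
      simp [Finsupp.single_apply]
    intro n hn x hx y hy
    rcases le_total (∑ j, ∑ i, (n i : ℝ) * M i j) 0 with h1 | h1
    · exact hex n hn h1 _ (hcoord n) x hx y hy
    · intro hxy
      have hneg : ∑ i, ((-n) i : ℝ) • W i = -∑ i, (n i : ℝ) • W i := by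
        rw [← Finset.sum_neg_distrib]
        refine Finset.sum_congr rfl (fun i _ => ?_)
        simp
      have hsneg : (∑ j, ∑ i, ((-n) i : ℝ) * M i j) = -∑ j, ∑ i, (n i : ℝ) * M i j := by
        rw [← Finset.sum_neg_distrib]
        refine Finset.sum_congr rfl (fun j _ => ?_)
        rw [← Finset.sum_neg_distrib]
        refine Finset.sum_congr rfl (fun i _ => ?_)
        simp
      have hc := hcoord (-n)
      refine hex (-n) (by simpa using hn) ?_ _ hc y hy x hx ?_
      · have e : (∑ j, ∑ i, (((-n) i : ℤ) : ℝ) * M i j) = ∑ j, ∑ i, ((-n) i : ℝ) * M i j := rfl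
        rw [hsneg]; linarith
      · rw [hneg, ← hxy]; abel
  have hge := deltaL_ge_of hK W hpack
  rw [hWabs] at hge
  have hbd : 0 < |std.det b| * D := mul_pos hb0 hD
  have h1 : ENNReal.ofReal (|std.det b| * V / 6 / (|std.det b| * D)) ≤ deltaL K := by
    rw [ENNReal.ofReal_div_of_pos hbd]
    exact (ENNReal.div_le_div hvol le_rfl).trans hge
  have h18 : (18 / 49 : ℝ≥0∞) = ENNReal.ofReal (18 / 49) := by
    rw [ENNReal.ofReal_div_of_pos (by norm_num)]
    simp
  constructor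
  · intro hle
    rw [h18]
    refine le_trans (ENNReal.ofReal_le_ofReal ?_) h1
    rw [le_div_iff₀ hbd]
    have := mul_le_mul_of_nonneg_left hle hb0.le
    rw [← hB] at this
    linarith
  · intro hlt
    rw [h18]
    refine lt_of_lt_of_le ((ENNReal.ofReal_lt_ofReal_iff_of_nonneg (by norm_num)).2 ?_) h1
    rw [lt_div_iff₀ hbd]
    have := mul_lt_mul_of_pos_left hlt hb0
    rw [← hB] at this
    linarith

/-- The widths of a body in the directions used. -/
structure Widths (b : Module.Basis (Fin 3) ℝ E3) (K : Set E3) (w0 : ℝ) (w e : Fin 3 → ℝ) :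
    Prop where
  base : ∀ x ∈ K, ∀ y ∈ K, -sm b (x - y) ≤ w0
  facet : ∀ i, ∀ x ∈ K, ∀ y ∈ K, -b.repr (x - y) i ≤ w i
  edge : ∀ i, ∀ x ∈ K, ∀ y ∈ K, -sm b (x - y) + b.repr (x - y) i ≤ e i

theorem strict_width {K : Set E3} {g : E3 →ₗ[ℝ] ℝ} {c : ℝ} {v : E3} (hv : 0 < g v)
    (h : ∀ x ∈ K, ∀ y ∈ K, g (x - y) ≤ c) {x y : E3} (hx : x ∈ interior K)
    (hy : y ∈ interior K) : g (x - y) < c := by
  have := strict_interior (g := g) (c := c + g y) hv (fun z hz => by
    have := h z hz y (interior_subset hy)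
    rw [map_sub] at this; linarith) hx
  rw [map_sub]; linarith

theorem Widths.bound {b : Module.Basis (Fin 3) ℝ E3} {K : Set E3} {w0 : ℝ} {w e : Fin 3 → ℝ}
    (hw : Widths b K w0 w e) (hK : IsCompact K)
    {h1 h2 h3 c12 c13 c21 c23 c31 c32 : ℝ}
    (hh1 : 0 < h1) (hh2 : 0 < h2) (hh3 : 0 < h3)
    (hs : w0 ≤ h1 + h2 + h3) (k12 : h1 ≤ c12) (k13 : h1 ≤ c13) (k21 : h2 ≤ c21) (k23 : h2 ≤ c23)
    (k31 : h3 ≤ c31) (k32 : h3 ≤ c32) (col1 : w 0 ≤ c21 + c31) (col2 : w 1 ≤ c12 + c32)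
    (col3 : w 2 ≤ c13 + c23) (row1 : e 0 ≤ c12 + c13) (row2 : e 1 ≤ c21 + c23)
    (row3 : e 2 ≤ c31 + c32) {D V B : ℝ}
    (hdet : (c12 + c13 - h1) * (c21 + c23 - h2) * (c31 + c32 - h3)
      - (c12 + c13 - h1) * c23 * c32 - c12 * c21 * (c31 + c32 - h3)
      - c12 * c23 * c31 - c13 * c21 * c32 - c13 * (c21 + c23 - h2) * c31 = -D)
    (hD : 0 < D)
    (hvol : ENNReal.ofReal (|std.det b| * V / 6) ≤ volume K) (hB : 49 / 108 * V = B) :
    (D ≤ B → 18 / 49 ≤ deltaL K) ∧ (D < B → 18 / 49 < deltaL K) := by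
  refine density_of_matrix (M := !![c12 + c13 - h1, -c12, -c13; -c21, c21 + c23 - h2, -c23;
      -c31, -c32, c31 + c32 - h3]) hK b ?_ hD ?_ hvol hB
  · rw [det3_of, ← hdet]; ring
  · intro n hn hsum v hv x hx y hy hxy
    have hn' := ne_zero_three hn
    have hv' := hv
    simp only [Fin.sum_univ_three, Matrix.of_apply, Matrix.cons_val', Matrix.cons_val_zero,
      Matrix.cons_val_one, Matrix.cons_val] at hsum
    have v0 := hv 0
    have v1 := hv 1
    have v2 := hv 2
    simp only [Fin.sum_univ_three, Matrix.of_apply, Matrix.cons_val', Matrix.cons_val_zero,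
      Matrix.cons_val_one, Matrix.cons_val] at v0 v1 v2
    have hsm : sm b v = -((n 0 : ℝ) * h1 + n 1 * h2 + n 2 * h3) := by
      rw [sm_apply, Fin.sum_univ_three, v0, v1, v2]; ring
    have key := famW hh1 hh2 hh3 hs k12 k13 k21 k23 k31 k32 col1 col2 col3 row1 row2 row3 (n 0)
      (n 1) (n 2) hn' rfl (by linarith)
    -- strict inequalities
    have b0 : 0 < (-sm b) (-b 0) := by
      rw [LinearMap.neg_apply, map_neg, sm_self]; norm_num
    have s0 : -sm b v < w0 := by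
      have := strict_width (g := -sm b) (c := w0) b0 (fun x hx y hy => by
        rw [LinearMap.neg_apply]; exact hw.base x hx y hy) hx hy
      rw [LinearMap.neg_apply, hxy] at this
      exact this
    have sf : ∀ i, -b.repr v i < w i := by
      intro i
      have := strict_width (g := -b.coord i) (c := w i) (v := -b i) (by
        rw [LinearMap.neg_apply, map_neg]; simp) (fun x hx y hy => by
        rw [LinearMap.neg_apply, Module.Basis.coord_apply]; exact hw.facet i x hx y hy) hx hy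
      rw [LinearMap.neg_apply, hxy, Module.Basis.coord_apply] at this
      exact this
    have se : ∀ i, -sm b v + b.repr v i < e i := by
      intro i
      obtain ⟨j, hj⟩ : ∃ j : Fin 3, j ≠ i := exists_ne i
      have := strict_width (g := -sm b + b.coord i) (c := e i) (v := -b j) (by
        rw [LinearMap.add_apply, LinearMap.neg_apply, map_neg, map_neg, sm_self]
        simp [hj]) (fun x hx y hy => by
        rw [LinearMap.add_apply, LinearMap.neg_apply, Module.Basis.coord_apply]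
        exact hw.edge i x hx y hy) hx hy
      rw [LinearMap.add_apply, LinearMap.neg_apply, hxy, Module.Basis.coord_apply] at this
      exact this
    have f0 := sf 0
    have f1 := sf 1
    have f2 := sf 2
    have g0 := se 0
    have g1 := se 1
    have g2 := se 2
    rw [v0] at f0 g0
    rw [v1] at f1 g1
    rw [v2] at f2 g2
    rw [hsm] at s0 g0 g1 g2
    rcases key with h | h | h | h
    · linarith
    · rcases h with h | h <;> linarith
    · rcases h with h | h <;> linarith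
    · rcases h with h | h <;> linarith

end Pool.Agent.Helper47.CO
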